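import Mathlib

namespace Pool.Agent.P.MP_4a08ba_lc

open Filter

/- countable saturation along the hyperfilter -/
theorem sat {W J : Type*} [Countable J] (p : J → ℕ → W → Prop)
    (h : ∀ s : Finset J, ∀ᶠ t in (hyperfilter ℕ : Filter ℕ), ∃ w, ∀ j ∈ s, p j t w) :
    ∃ w : ℕ → W, ∀ j, ∀ᶠ t in (hyperfilter ℕ : Filter ℕ), p j t (w t) := by
  classical
  obtain ⟨e, he⟩ := Countable.exists_injective_nat J
  obtain ⟨t0, w0, -⟩ := (h ∅).exists
  let good : ℕ → ℕ → Prop := fun t N => ∃ w, ∀ j, e j < N → p j t w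
  have hg : ∀ t, good t (Nat.findGreatest (good t) t) := fun t =>
    Nat.findGreatest_spec (P := good t) (Nat.zero_le t) ⟨w0, fun j hj => absurd hj (by omega)⟩
  choose w hw using hg
  refine ⟨w, fun j => ?_⟩
  have hfin : (e ⁻¹' (Set.Iio (e j + 1))).Finite :=
    (Set.finite_Iio _).preimage he.injOn
  have h1 := h hfin.toFinset
  have h2 : ∀ᶠ t in (hyperfilter ℕ : Filter ℕ), e j + 1 ≤ t :=
    Nat.hyperfilter_le_atTop (eventually_ge_atTop _)
  filter_upwards [h1, h2] with t ht1 ht2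
  apply hw
  have : good t (e j + 1) := by
    obtain ⟨w', hw'⟩ := ht1
    exact ⟨w', fun i hi => hw' i (by simpa using Nat.lt_succ_iff.mp hi)⟩
  have := Nat.le_findGreatest ht2 this
  omega

variable {X : Type*}

/- finite-width rank -/
def D (G : Set (Set X)) (k w : ℕ) : ℕ → Set X → Prop
  | 0, P => P.Nonempty
  | n + 1, P => ∃ b : ℕ → Set X, (∀ i, b i ∈ G) ∧
      (∀ s : Finset ℕ, k ≤ s.card → (∀ i ∈ s, i ≤ w) → ¬ ∃ x, ∀ i ∈ s, x ∈ b i) ∧
      ∀ i ≤ w, D G k w n (P ∩ b i)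

theorem D.mono {G : Set (Set X)} {k w w' : ℕ} (hw : w' ≤ w) :
    ∀ {n : ℕ} {P Q : Set X}, P ⊆ Q → D G k w n P → D G k w' n Q
  | 0, _, _, h, hP => Set.Nonempty.mono h hP
  | _ + 1, _, _, h, ⟨b, hb, hk, hd⟩ =>
    ⟨b, hb, fun s hs hs' => hk s hs fun i hi => (hs' i hi).trans hw,
      fun i hi => D.mono hw (Set.inter_subset_inter_left _ h) (hd i (hi.trans hw))⟩

theorem D.pred {G : Set (Set X)} {k w : ℕ} :
    ∀ {n : ℕ} {P : Set X}, D G k w (n + 1) P → D G k w n P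
  | 0, _, ⟨_, _, _, hd⟩ => Set.Nonempty.mono Set.inter_subset_left (hd 0 (Nat.zero_le _))
  | _ + 1, _, ⟨b, hb, hk, hd⟩ => ⟨b, hb, hk, fun i hi => D.pred (hd i hi)⟩

theorem D.of_le {G : Set (Set X)} {k w n n' : ℕ} (h : n' ≤ n) {P : Set X}
    (hP : D G k w n P) : D G k w n' P := by
  induction h with
  | refl => exact hP
  | step _ ih => exact ih hP.pred

def DS (G : Set (Set X)) (k n : ℕ) (P : ℕ → Set X) : Prop :=
  ∀ w, ∀ᶠ t in (hyperfilter ℕ : Filter ℕ), D G k w n (P t)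

def KI (k : ℕ) (b : ℕ → ℕ → Set X) : Prop :=
  ∀ s : Finset ℕ, k ≤ s.card → ∀ᶠ t in (hyperfilter ℕ : Filter ℕ), ¬ ∃ x, ∀ i ∈ s, x ∈ b i t

theorem DS.mono {G : Set (Set X)} {k n : ℕ} {P Q : ℕ → Set X} (h : ∀ t, P t ⊆ Q t)
    (hP : DS G k n P) : DS G k n Q := fun w =>
  (hP w).mono fun t ht => D.mono le_rfl (h t) ht

theorem KI.comp {k : ℕ} {b : ℕ → ℕ → Set X} (h : KI k b) {f : ℕ → ℕ}
    (hf : Function.Injective f) : KI k (fun j => b (f j)) := by
  intro s hs
  have := h (s.image f) (by rwa [Finset.card_image_of_injective _ hf])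
  filter_upwards [this] with t ht
  rintro ⟨x, hx⟩
  exact ht ⟨x, by simpa using hx⟩

theorem KI.bounded {k : ℕ} {b : ℕ → ℕ → Set X} (h : KI k b) (w : ℕ) :
    ∀ᶠ t in (hyperfilter ℕ : Filter ℕ), ∀ s : Finset ℕ, k ≤ s.card → (∀ i ∈ s, i ≤ w) →
      ¬ ∃ x, ∀ i ∈ s, x ∈ b i t := by
  have : ∀ᶠ t in (hyperfilter ℕ : Filter ℕ), ∀ s ∈ (Finset.range (w + 1)).powerset,
      k ≤ s.card → ¬ ∃ x, ∀ i ∈ s, x ∈ b i t := by
    rw [eventually_all_finset]
    intro s _
    by_cases hs : k ≤ s.card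
    · exact (h s hs).mono fun t ht _ => ht
    · exact Eventually.of_forall fun t h' => absurd h' hs
  filter_upwards [this] with t ht s hs hs'
  refine ht s ?_ hs
  rw [Finset.mem_powerset]
  intro i hi
  exact Finset.mem_range.mpr (Nat.lt_succ_of_le (hs' i hi))

theorem ev_le {p : ℕ → ℕ → Prop} (w : ℕ)
    (h : ∀ j ≤ w, ∀ᶠ t in (hyperfilter ℕ : Filter ℕ), p j t) :
    ∀ᶠ t in (hyperfilter ℕ : Filter ℕ), ∀ j ≤ w, p j t := by
  have : ∀ᶠ t in (hyperfilter ℕ : Filter ℕ), ∀ j ∈ Finset.range (w + 1), p j t := by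
    rw [eventually_all_finset]
    intro j hj
    exact h j (Nat.lt_succ_iff.mp (Finset.mem_range.mp hj))
  filter_upwards [this] with t ht j hj
  exact ht j (Finset.mem_range.mpr (Nat.lt_succ_of_le hj))

theorem DS.succ {G : Set (Set X)} {k n : ℕ} {P : ℕ → Set X} {b : ℕ → ℕ → Set X}
    (hb : ∀ j t, b j t ∈ G) (hk : KI k b) (hd : ∀ j, DS G k n (fun t => P t ∩ b j t)) :
    DS G k (n + 1) P := by
  intro w
  filter_upwards [hk.bounded w, ev_le (p := fun j t => D G k w n (P t ∩ b j t)) w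
    fun j _ => hd j w] with t h1 h2
  exact ⟨fun j => b j t, fun j => hb j t, h1, h2⟩

theorem finite_bad {G : Set (Set X)} {k n : ℕ} {P : ℕ → Set X} {b : ℕ → ℕ → Set X}
    (hb : ∀ j t, b j t ∈ G) (hk : KI k b) (hP : ¬ DS G k (n + 1) P) :
    {j | DS G k n (fun t => P t ∩ b j t)}.Finite := by
  by_contra hinf
  have hinf : {j | DS G k n (fun t => P t ∩ b j t)}.Infinite := hinf
  let f := hinf.natEmbedding
  apply hP
  refine DS.succ (b := fun j => b (f j)) (fun j t => hb _ t)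
    (hk.comp (f := fun j => (f j : ℕ)) (Subtype.val_injective.comp f.injective)) ?_
  intro j
  exact (f j).2

def Good (G H : Set (Set X)) (k κ : ℕ) (q e : ℕ → ℕ → Set X) : Prop :=
  (∀ j t, e j t ∈ H) ∧ KI κ e ∧ ∀ j i n, DS G k n (fun t => q i t ∩ e j t)

theorem assemble {G H : Set (Set X)} {k κ : ℕ} {q : ℕ → ℕ → Set X}
    (hq : ∀ i i' t, i ≤ i' → q i' t ⊆ q i t)
    (h : ∀ B, ∀ᶠ t in (hyperfilter ℕ : Filter ℕ), ∃ b : ℕ → Set X, (∀ j, b j ∈ H) ∧
      (∀ s : Finset ℕ, κ ≤ s.card → (∀ i ∈ s, i ≤ B) → ¬ ∃ x, ∀ i ∈ s, x ∈ b i) ∧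
      ∀ j ≤ B, D G k B B (q B t ∩ b j)) :
    ∃ e, Good G H k κ q e := by
  let p : Finset ℕ ⊕ (ℕ × ℕ × ℕ × ℕ) → ℕ → (ℕ → H) → Prop := fun c t w =>
    match c with
    | Sum.inl s => κ ≤ s.card → ¬ ∃ x, ∀ i ∈ s, x ∈ (w i : Set X)
    | Sum.inr (j, i, n, w') => D G k w' n (q i t ∩ w j)
  let sz : Finset ℕ ⊕ (ℕ × ℕ × ℕ × ℕ) → ℕ := fun c =>
    match c with
    | Sum.inl s => s.sup id
    | Sum.inr (j, i, n, w') => j + i + n + w'
  obtain ⟨w, hw⟩ := sat p (by
    intro S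
    filter_upwards [h (S.sup sz)] with t ⟨b, hb, h1, h2⟩
    refine ⟨fun j => ⟨b j, hb j⟩, fun c hc => ?_⟩
    have hc' : sz c ≤ S.sup sz := Finset.le_sup hc
    match c with
    | Sum.inl s =>
      intro hs
      exact h1 s hs fun i hi => (Finset.le_sup (f := id) hi).trans hc'
    | Sum.inr (j, i, n, w') =>
      have hc'' : j + i + n + w' ≤ S.sup sz := hc'
      exact D.of_le (by omega) (D.mono (by omega)
        (Set.inter_subset_inter_left _ (hq _ _ t (by omega))) (h2 j (by omega))))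
  refine ⟨fun j t => w t j, fun j t => (w t j).2, fun s hs => ?_, fun j i n w' => ?_⟩
  · exact (hw (Sum.inl s)).mono fun t ht => ht hs
  · exact hw (Sum.inr (j, i, n, w'))

theorem split {G : Set (Set X)} {k : ℕ} {q : ℕ → ℕ → Set X}
    (hq : ∀ i i' t, i ≤ i' → q i' t ⊆ q i t) (h : ∀ i n, DS G k n (q i)) :
    ∃ e, Good G G k k q e :=
  assemble hq fun B => h B (B + 1) B

theorem kill {F : ℕ → Set (Set X)} (h0 : Set.univ ∈ F 0)
    (hint : ∀ m m' P Q, P ∈ F m → Q ∈ F m' → P ∩ Q ∈ F (m + m')) {k : ℕ} (N : ℕ) :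
    ∀ (r : ℕ) (B q : ℕ → ℕ → Set X), (∀ i i' t, i ≤ i' → q i' t ⊆ q i t) →
      (∀ i n, DS (F 1) k n (q i)) → (∀ a < N, ¬ DS (F 1) k r (B a)) →
      ∃ d : ℕ → Set X, (∀ t, d t ∈ F r) ∧ (∀ i n, DS (F 1) k n (fun t => q i t ∩ d t)) ∧
        ∀ a < N, ∀ᶠ t in (hyperfilter ℕ : Filter ℕ), ¬ (B a t ∩ d t).Nonempty := by
  intro r
  induction r with
  | zero =>
    intro B q _ hL hB
    refine ⟨fun _ => Set.univ, fun _ => h0, fun i n => by simpa using hL i n, fun a ha => ?_⟩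
    have := hB a ha
    simp only [DS, not_forall] at this
    obtain ⟨w, hw⟩ := this
    rw [← Ultrafilter.eventually_not] at hw
    simpa [D] using hw
  | succ r ih =>
    intro B q hq hL hB
    obtain ⟨b, hb, hk, hd⟩ := split hq hL
    have hfin : (⋃ a ∈ Set.Iio N, {j | DS (F 1) k r (fun t => B a t ∩ b j t)}).Finite :=
      (Set.finite_Iio N).biUnion fun a ha => finite_bad hb hk (hB a ha)
    obtain ⟨j, hj⟩ := hfin.exists_notMem
    simp only [Set.mem_iUnion, not_exists] at hj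
    obtain ⟨d, hd1, hd2, hd3⟩ := ih (fun a t => B a t ∩ b j t) (fun i t => q i t ∩ b j t)
      (fun i i' t hi => Set.inter_subset_inter_left _ (hq i i' t hi)) (fun i n => hd j i n)
      (fun a ha => hj a ha)
    refine ⟨fun t => d t ∩ b j t, fun t => hint _ _ _ _ (hd1 t) (hb j t), fun i n => ?_,
      fun a ha => ?_⟩
    · exact (hd2 i n).mono fun t x hx => ⟨hx.1.1, hx.2, hx.1.2⟩
    · exact (hd3 a ha).mono fun t ht ⟨x, hx⟩ => ht ⟨x, ⟨hx.1, hx.2.2⟩, hx.2.1⟩

theorem lemmaA {F : ℕ → Set (Set X)} (h0 : Set.univ ∈ F 0)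
    (hint : ∀ m m' P Q, P ∈ F m → Q ∈ F m' → P ∩ Q ∈ F (m + m')) {k : ℕ}
    {q : ℕ → ℕ → Set X} (hq : ∀ i i' t, i ≤ i' → q i' t ⊆ q i t)
    (hqF : ∀ i, ∃ m, ∀ t, q i t ∈ F m) :
    ∀ (κ m : ℕ) (e : ℕ → ℕ → Set X), Good (F 1) (F m) k κ q e →
      ∃ m' e', Good (F 1) (F m') k 2 q e' := by
  intro κ
  induction κ with
  | zero => exact fun m e he => ⟨m, e, he.1, fun s _ => he.2.1 s (Nat.zero_le _), he.2.2⟩
  | succ κ ih =>
    intro m e ⟨he1, he2, he3⟩
    by_cases hκ : κ + 1 ≤ 2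
    · exact ⟨m, e, he1, fun s hs => he2 s (hκ.trans hs), he3⟩
    by_cases hc : ∃ i r, ∃ f : ℕ → ℕ, ∀ j j', j ≠ j' →
        ¬ DS (F 1) k r (fun t => q i t ∩ e (f j) t ∩ e (f j') t)
    · obtain ⟨i0, r, f, hf⟩ := hc
      obtain ⟨m0, hm0⟩ := hqF i0
      have := fun j' => kill h0 hint (k := k) j' r
        (fun a t => q i0 t ∩ e (f a) t ∩ e (f j') t) (fun i t => q i t ∩ e (f j') t)
        (fun i i' t hi => Set.inter_subset_inter_left _ (hq i i' t hi))
        (fun i n => he3 _ i n) (fun a ha => hf a j' ha.ne)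
      choose d hd1 hd2 hd3 using this
      refine ⟨m0 + m + r, fun j t => q i0 t ∩ e (f j) t ∩ d j t,
        fun j t => hint _ _ _ _ (hint _ _ _ _ (hm0 t) (he1 _ t)) (hd1 j t), fun s hs => ?_,
        fun j i n => ?_⟩
      · obtain ⟨a, ha, b, hb, hab⟩ : ∃ a ∈ s, ∃ b ∈ s, a < b := by
          obtain ⟨a, ha, b, hb, hab⟩ := Finset.one_lt_card.mp (show 1 < s.card by omega)
          rcases lt_or_gt_of_ne hab with h | h
          · exact ⟨a, ha, b, hb, h⟩
          · exact ⟨b, hb, a, ha, h⟩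
        filter_upwards [hd3 b a hab] with t ht
        rintro ⟨x, hx⟩
        exact ht ⟨x, ⟨(hx a ha).1, (hx b hb).1.2⟩, (hx b hb).2⟩
      · refine (hd2 j (max i i0) n).mono fun t x hx => ?_
        exact ⟨hq _ _ t (le_max_left _ _) hx.1.1,
          ⟨hq _ _ t (le_max_right _ _) hx.1.1, hx.1.2⟩, hx.2⟩
    · push Not at hc
      obtain ⟨e', he'⟩ : ∃ e', Good (F 1) (F (m + m)) k κ q e' := by
        apply assemble hq
        intro B
        have := fun a => hc B B (fun j => Nat.pair a j)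
        choose g g' hg hD using this
        have hki : KI κ (fun a t => e (Nat.pair a (g a)) t ∩ e (Nat.pair a (g' a)) t) := by
          intro s hs
          have hi1 : Function.Injective fun a => Nat.pair a (g a) :=
            fun a b hab => (Nat.pair_eq_pair.mp hab).1
          have hi2 : Function.Injective fun a => Nat.pair a (g' a) :=
            fun a b hab => (Nat.pair_eq_pair.mp hab).1
          have hdisj : Disjoint (s.image fun a => Nat.pair a (g a))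
              (s.image fun a => Nat.pair a (g' a)) := by
            rw [Finset.disjoint_left]
            intro x hx1 hx2
            obtain ⟨a, -, rfl⟩ := Finset.mem_image.mp hx1
            obtain ⟨b, -, hb⟩ := Finset.mem_image.mp hx2
            obtain ⟨rfl, h2⟩ := Nat.pair_eq_pair.mp hb
            exact hg _ h2.symm
          have := he2 ((s.image fun a => Nat.pair a (g a)) ∪ (s.image fun a => Nat.pair a (g' a)))
            (by
              rw [Finset.card_union_of_disjoint hdisj, Finset.card_image_of_injective _ hi1,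
                Finset.card_image_of_injective _ hi2]
              omega)
          filter_upwards [this] with t ht
          rintro ⟨x, hx⟩
          refine ht ⟨x, fun i hi => ?_⟩
          rcases Finset.mem_union.mp hi with hi | hi
          · obtain ⟨a, ha, rfl⟩ := Finset.mem_image.mp hi
            exact (hx a ha).1
          · obtain ⟨a, ha, rfl⟩ := Finset.mem_image.mp hi
            exact (hx a ha).2
        filter_upwards [hki.bounded B, ev_le (p := fun a t => D (F 1) k B B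
          (q B t ∩ e (Nat.pair a (g a)) t ∩ e (Nat.pair a (g' a)) t)) B
          fun a _ => hD a B] with t h1 h2
        refine ⟨fun a => e (Nat.pair a (g a)) t ∩ e (Nat.pair a (g' a)) t,
          fun a => hint _ _ _ _ (he1 _ t) (he1 _ t), h1, fun a ha => ?_⟩
        rw [← Set.inter_assoc]
        exact h2 a ha
      exact ih _ _ he'

/- reduction from k-inconsistency to 2-inconsistency -/
theorem reduce_two {F : ℕ → Set (Set X)} (h0 : Set.univ ∈ F 0)
    (hint : ∀ m m' P Q, P ∈ F m → Q ∈ F m' → P ∩ Q ∈ F (m + m')) {k : ℕ}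
    (h : ∀ n w, D (F 1) k w n Set.univ) : ∃ m, ∀ n w, D (F m) 2 w n Set.univ := by
  classical
  by_contra hcon
  push Not at hcon
  let C : Set (ℕ → Set X) := {P | (∃ m, ∀ t, P t ∈ F m) ∧ ∀ n, DS (F 1) k n P}
  have step : ∀ (m : ℕ) (P : C), ∃ P' : C, (∀ t, P'.1 t ⊆ P.1 t) ∧ ∃ r,
      ¬ DS (F m) 2 (r + 1) P'.1 ∧ ∀ Q ∈ C, (∀ t, Q t ⊆ P'.1 t) → DS (F m) 2 r Q := by
    intro m P
    have hex : ∃ n, ∃ P' : C, (∀ t, P'.1 t ⊆ P.1 t) ∧ ¬ DS (F m) 2 n P'.1 := by
      obtain ⟨n, w, hn⟩ := hcon m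
      refine ⟨n, P, fun t => le_rfl, fun hD => hn ?_⟩
      obtain ⟨t, ht⟩ := (hD w).exists
      exact D.mono le_rfl (Set.subset_univ _) ht
    obtain ⟨P', hP', hn⟩ := Nat.find_spec hex
    have hmin := fun r (hr : r < Nat.find hex) => Nat.find_min hex hr
    cases hf : Nat.find hex with
    | zero =>
      rw [hf] at hn
      exact absurd (fun w => P'.2.2 0 w) hn
    | succ r =>
      rw [hf] at hn hmin
      refine ⟨P', hP', r, hn, fun Q hQ hQP => ?_⟩
      by_contra hQ'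
      exact hmin r (Nat.lt_succ_self r) ⟨⟨Q, hQ⟩, fun t => (hQP t).trans (hP' t), hQ'⟩
  choose nx hnx1 r hnx2 hnx3 using step
  have hu : (fun _ => Set.univ) ∈ C :=
    ⟨⟨0, fun _ => h0⟩, fun n w => Eventually.of_forall fun _ => h n w⟩
  let q : ℕ → C := fun i => Nat.rec ⟨_, hu⟩ (fun m P => nx m P) i
  have hq : ∀ i i' t, i ≤ i' → (q i').1 t ⊆ (q i).1 t := by
    intro i i' t hi
    induction hi with
    | refl => exact le_rfl
    | step _ ih => exact (hnx1 _ _ t).trans ih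
  obtain ⟨e, he⟩ := split (G := F 1) (k := k) (q := fun i => (q i).1) hq fun i n => (q i).2.2 n
  obtain ⟨m, e', he1, he2, he3⟩ := lemmaA h0 hint hq (fun i => (q i).2.1) _ _ _ he
  apply hnx2 m (q m)
  refine DS.succ he1 he2 fun j => hnx3 m (q m) _ ⟨?_, fun n => he3 j (m + 1) n⟩
    fun t => Set.inter_subset_left
  obtain ⟨m0, hm0⟩ := (q (m + 1)).2.1
  exact ⟨m0 + m, fun t => hint _ _ _ _ (hm0 t) (he1 j t)⟩

end Pool.Agent.P.MP_4a08ba_lc
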