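import Pool.Agent.P.MP_4a08ba_lc.Comb

namespace Pool.Agent.P.MP_4a08ba_lc

theorem lexpre : ∀ (ν η : List ℕ), ν <+: η ↔
    ¬ η < ν ∧ ¬ (η.map OrderDual.toDual < ν.map OrderDual.toDual)
  | [], η => by simp
  | i :: ν, [] => by simp
  | i :: ν, j :: η => by
    rw [List.cons_prefix_cons, lexpre ν η, List.map_cons, List.map_cons, List.cons_lt_cons_iff,
      List.cons_lt_cons_iff]
    simp only [OrderDual.toDual_lt_toDual, EmbeddingLike.apply_eq_iff_eq]
    constructor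
    · rintro ⟨rfl, h1, h2⟩
      simp [h1, h2]
    · rintro ⟨h1, h2⟩
      have : i = j := by
        by_contra h
        rcases lt_or_gt_of_ne h with h | h
        · exact h2 (Or.inl h)
        · exact h1 (Or.inl h)
      subst this
      exact ⟨rfl, fun h => h1 (Or.inr ⟨rfl, h⟩), fun h => h2 (Or.inr ⟨rfl, h⟩)⟩

theorem rank_exists {α β : Type*} [LinearOrder β] (g : α → β) (E : Finset α) :
    ∃ f : α → ℕ, ∀ a ∈ E, ∀ b ∈ E, f a ≤ f b ↔ ¬ g b < g a := by
  classical
  refine ⟨fun a => (E.filter fun c => g c < g a).card, fun a ha b hb =>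
    ⟨fun h hlt => ?_, fun h => ?_⟩⟩
  · refine absurd h (not_le.mpr (Finset.card_lt_card ⟨fun c hc => ?_, fun hsub => ?_⟩))
    · simp only [Finset.mem_filter] at hc ⊢
      exact ⟨hc.1, hc.2.trans hlt⟩
    · have := hsub (Finset.mem_filter.mpr ⟨hb, hlt⟩)
      simp at this
  · refine Finset.card_le_card fun c hc => ?_
    simp only [Finset.mem_filter] at hc ⊢
    exact ⟨hc.1, hc.2.trans_le (not_lt.mp h)⟩

/- the tree order has dimension two -/
theorem dim_two (E : Finset (List ℕ)) :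
    ∃ f g : List ℕ → ℕ, ∀ a ∈ E, ∀ b ∈ E, a <+: b ↔ f a ≤ f b ∧ g a ≤ g b := by
  obtain ⟨f, hf⟩ := rank_exists (fun a : List ℕ => a) E
  obtain ⟨g, hg⟩ := rank_exists (fun a : List ℕ => a.map OrderDual.toDual) E
  refine ⟨f, g, fun a ha b hb => ?_⟩
  rw [hf a ha b hb, hg a ha b hb, lexpre]

variable {X Y : Type*}

theorem extract {G : Set (Set X)} {g0 : Set X} (hg0 : g0 ∈ G) {w : ℕ} :
    ∀ (n : ℕ) (P : Set X), D G 2 w n P → ∃ (A : List ℕ → Set X) (c : List ℕ → X),
      (∀ ν, A ν ∈ G) ∧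
      (∀ η : List ℕ, η.length ≤ n → (∀ i ∈ η, i ≤ w) →
        c η ∈ P ∧ ∀ ν, ν ≠ [] → ν <+: η → c η ∈ A ν) ∧
      (∀ (η : List ℕ) (i j : ℕ), η.length < n → (∀ l ∈ η, l ≤ w) → i ≤ w → j ≤ w → i ≠ j →
        ¬ ∃ x, x ∈ A (η ++ [i]) ∧ x ∈ A (η ++ [j])) := by
  intro n
  induction n with
  | zero =>
    rintro P ⟨p, hp⟩
    refine ⟨fun _ => g0, fun _ => p, fun _ => hg0, fun η hη _ => ⟨hp, fun ν hν hνη => ?_⟩,
      fun η i j h => absurd h (Nat.not_lt_zero _)⟩
    have : η = [] := List.length_eq_zero_iff.mp (Nat.le_zero.mp hη)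
    subst this
    exact absurd (List.prefix_nil.mp hνη) hν
  | succ n ih =>
    intro P hP
    obtain ⟨p, hp⟩ : P.Nonempty := D.of_le (Nat.zero_le _) hP
    obtain ⟨b, hb, hk, hd⟩ := hP
    choose A c hA hc hs using fun i => ih _ (hd (min i w) (min_le_right _ _))
    let A' : List ℕ → Set X := fun ν =>
      match ν with
      | [] => g0
      | [i] => b i
      | i :: j :: ν' => A i (j :: ν')
    let c' : List ℕ → X := fun η =>
      match η with
      | [] => p
      | i :: η' => c i η'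
    refine ⟨A', c', fun ν => ?_, fun η hη hw => ?_, fun η i j hη hw hi hj hij => ?_⟩
    · match ν with
      | [] => exact hg0
      | [i] => exact hb i
      | i :: j :: ν' => exact hA i _
    · match η with
      | [] => exact ⟨hp, fun ν hν hνη => absurd (List.prefix_nil.mp hνη) hν⟩
      | i :: η' =>
        have hi : i ≤ w := hw i (by simp)
        have h1 := hc i η' (by simpa using hη) (fun l hl => hw l (by simp [hl]))
        rw [min_eq_left hi] at h1
        refine ⟨h1.1.1, fun ν hν hνη => ?_⟩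
        match ν with
        | [] => exact absurd rfl hν
        | [j] =>
          obtain ⟨rfl, -⟩ := List.cons_prefix_cons.mp hνη
          exact h1.1.2
        | j :: l :: ν' =>
          obtain ⟨rfl, h2⟩ := List.cons_prefix_cons.mp hνη
          exact h1.2 _ (by simp) h2
    · match η with
      | [] =>
        rintro ⟨x, hx1, hx2⟩
        refine hk {i, j} (by rw [Finset.card_pair hij]) ?_ ⟨x, ?_⟩
        · intro l hl
          rcases Finset.mem_insert.mp hl with rfl | hl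
          · exact hi
          · rw [Finset.mem_singleton.mp hl]; exact hj
        · intro l hl
          rcases Finset.mem_insert.mp hl with rfl | hl
          · exact hx1
          · rw [Finset.mem_singleton.mp hl]; exact hx2
      | l :: η' =>
        have h1 := hs l η' i j (by simpa using hη) (fun l' hl => hw l' (by simp [hl])) hi hj hij
        have h2 : ∀ i, A' ((l :: η') ++ [i]) = A l (η' ++ [i]) := by
          intro i
          cases η' <;> rfl
        rwa [h2, h2]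

theorem tree_rank {R : X → Y → Prop} {a : List ℕ → Y} {k : ℕ} {G : Set (Set X)}
    (hG : ∀ y, {x | R x y} ∈ G)
    (h1 : ∀ η : List ℕ, ∃ x, ∀ ν, ν <+: η → R x (a ν))
    (h2 : ∀ (η : List ℕ) (s : Finset ℕ), k ≤ s.card → ¬ ∃ x, ∀ i ∈ s, R x (a (η ++ [i])))
    (w : ℕ) : ∀ (n : ℕ) (η : List ℕ), D G k w n {x | ∀ ν, ν <+: η → R x (a ν)} := by
  intro n
  induction n with
  | zero => exact h1
  | succ n ih =>
    intro η
    refine ⟨fun i => {x | R x (a (η ++ [i]))}, fun i => hG _, fun s hs _ => h2 η s hs,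
      fun i _ => D.mono le_rfl ?_ (ih (η ++ [i]))⟩
    intro x hx
    exact ⟨fun ν hν => hx ν (hν.trans (List.prefix_append _ _)), hx _ List.prefix_rfl⟩

/- the order property -/
theorem ladder {R : X → Y → Prop} {a : List ℕ → Y} {k : ℕ}
    (h1 : ∀ η : List ℕ, ∃ x, ∀ ν, ν <+: η → R x (a ν))
    (h2 : ∀ (η : List ℕ) (s : Finset ℕ), k ≤ s.card → ¬ ∃ x, ∀ i ∈ s, R x (a (η ++ [i]))) :
    ∃ (u : ℕ → X) (v : ℕ → Y), ∀ i j, R (u i) (v j) ↔ j ≤ i := by
  classical
  choose c hc using h1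
  have hfin : ∀ (η : List ℕ) (x : X), {j | R x (a (η ++ [j]))}.Finite := by
    intro η x
    by_contra hinf
    obtain ⟨s, hs, hk⟩ := Set.Infinite.exists_subset_card_eq hinf k
    exact h2 η s hk.ge ⟨x, fun i hi => hs hi⟩
  have hnext : ∀ η : List ℕ, ∃ j, ∀ ν, ν <+: η → ¬ R (c ν) (a (η ++ [j])) := by
    intro η
    have hf : (⋃ ν ∈ η.inits.toFinset, {j | R (c ν) (a (η ++ [j]))}).Finite :=
      (Finset.finite_toSet _).biUnion fun ν _ => hfin η (c ν)
    obtain ⟨j, hj⟩ := hf.exists_notMem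
    refine ⟨j, fun ν hν h => hj ?_⟩
    simp only [Set.mem_iUnion]
    exact ⟨ν, by simpa using hν, h⟩
  choose nx hnx using hnext
  let η : ℕ → List ℕ := fun i => Nat.rec [] (fun _ l => l ++ [nx l]) i
  have hη : ∀ i j, i ≤ j → η i <+: η j := by
    intro i j hij
    induction hij with
    | refl => exact List.prefix_rfl
    | step _ ih => exact ih.trans (List.prefix_append _ _)
  refine ⟨fun i => c (η i), fun j => a (η j), fun i j => ⟨fun h => ?_, fun h => hc _ _ (hη _ _ h)⟩⟩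
  by_contra hij
  obtain ⟨j, rfl⟩ : ∃ j', j = j' + 1 := ⟨j - 1, by omega⟩
  exact hnx (η j) (η i) (hη _ _ (by omega)) h

def Phi (R : X → Y → Prop) {m : ℕ} (x : X × X × X) (y : (Fin m → Y) × Y × Y) : Prop :=
  (∀ i, R x.1 (y.1 i)) ∧ R x.2.1 y.2.1 ∧ R x.2.2 y.2.2

theorem config {R : X → Y → Prop} {a : List ℕ → Y} {k : ℕ}
    (h1 : ∀ η : List ℕ, ∃ x, ∀ ν, ν <+: η → R x (a ν))
    (h2 : ∀ (η : List ℕ) (s : Finset ℕ), k ≤ s.card → ¬ ∃ x, ∀ i ∈ s, R x (a (η ++ [i]))) :
    ∃ m, ∀ E : Finset (List ℕ), ∃ (c : List ℕ → X × X × X) (b : List ℕ → (Fin m → Y) × Y × Y),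
      (∀ η ∈ E, ∀ ν ∈ E, ν ≠ [] → (Phi R (c η) (b ν) ↔ ν <+: η)) ∧
      ∀ (η : List ℕ) (i j : ℕ), η ++ [i] ∈ E → η ++ [j] ∈ E → i ≠ j →
        ¬ ∃ x, Phi R x (b (η ++ [i])) ∧ Phi R x (b (η ++ [j])) := by
  classical
  let F : ℕ → Set (Set X) := fun m => {P | ∃ f : Fin m → Y, P = {x | ∀ i, R x (f i)}}
  have h0 : Set.univ ∈ F 0 := ⟨Fin.elim0, by ext x; simp⟩
  have hint : ∀ m m' P Q, P ∈ F m → Q ∈ F m' → P ∩ Q ∈ F (m + m') := by
    rintro m m' _ _ ⟨f, rfl⟩ ⟨g, rfl⟩
    refine ⟨Fin.append f g, ?_⟩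
    ext x
    simp [Fin.forall_fin_add]
  have hG : ∀ y, {x | R x y} ∈ F 1 := fun y => ⟨fun _ => y, by ext x; simp⟩
  obtain ⟨m, hm⟩ := reduce_two h0 hint (k := k) fun n w =>
    D.mono le_rfl (Set.subset_univ _) (tree_rank hG h1 h2 w n [])
  obtain ⟨u, v, huv⟩ := ladder h1 h2
  refine ⟨m, fun E => ?_⟩
  let n := E.sup List.length
  let w := E.sup fun l => l.toFinset.sup id
  have hn : ∀ η ∈ E, η.length ≤ n := fun η hη => Finset.le_sup hη
  have hw : ∀ η ∈ E, ∀ i ∈ η, i ≤ w := fun η hη i hi =>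
    (Finset.le_sup (f := id) (List.mem_toFinset.mpr hi)).trans
      (Finset.le_sup (f := fun l : List ℕ => l.toFinset.sup id) hη)
  obtain ⟨A, c, hA, hc, hs⟩ := extract (G := F m) (g0 := {x | ∀ _ : Fin m, R x (a [])})
    ⟨fun _ => a [], rfl⟩ n _ (hm n w)
  choose fA hfA using hA
  obtain ⟨f, g, hfg⟩ := dim_two E
  refine ⟨fun η => (c η, u (f η), u (g η)), fun ν => (fA ν, v (f ν), v (g ν)),
    fun η hη ν hν hne => ?_, fun η i j hi hj hij => ?_⟩
  · simp only [Phi, huv]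
    constructor
    · exact fun h => (hfg ν hν η hη).mpr h.2
    · intro h
      refine ⟨?_, (hfg ν hν η hη).mp h⟩
      have := (hc η (hn η hη) (hw η hη)).2 ν hne h
      rwa [hfA ν] at this
  · rintro ⟨x, hx1, hx2⟩
    refine hs η i j ?_ (fun l hl => hw _ hi l (by simp [hl])) (hw _ hi i (by simp))
      (hw _ hj j (by simp)) hij ⟨x.1, ?_, ?_⟩
    · have := hn _ hi
      simp only [List.length_append, List.length_singleton] at this
      omega
    · rw [hfA]; exact hx1.1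
    · rw [hfA]; exact hx2.1

end Pool.Agent.P.MP_4a08ba_lc
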