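import Mathlib

namespace Pool.Agent.P.MP_4a08ba_lc

open FirstOrder

universe u v w

/- The set of formulas `φ(x, a)`, `a ∈ A`, is consistent: finitely satisfiable in `M`. -/
def Consistent {L : FirstOrder.Language.{u, v}} {M : Type w} [L.Structure M] {m n : ℕ}
    (φ : L.Formula (Fin m ⊕ Fin n)) (A : Set (Fin n → M)) : Prop :=
  ∀ s : Finset (Fin n → M), (s : Set (Fin n → M)) ⊆ A →
    ∃ c : Fin m → M, ∀ a ∈ s, φ.Realize (Sum.elim c a)

/- The tree property. -/
def HasTP {L : FirstOrder.Language.{u, v}} (T : L.Theory) : Prop :=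
  ∃ (m n : ℕ) (φ : L.Formula (Fin m ⊕ Fin n)) (M : FirstOrder.Language.Theory.ModelType.{u, v, w} T)
    (a : List ℕ → Fin n → M),
    (∀ β : ℕ → ℕ, Consistent φ (Set.range fun j : ℕ => a ((List.range j).map β))) ∧
    ∃ k : ℕ, ∀ (η : List ℕ) (s : Finset ℕ), s.card = k →
      ¬ Consistent φ ((fun i => a (η ++ [i])) '' s)

/- `S`-SOP. -/
def HasSOP (S : Type) [PartialOrder S] {L : FirstOrder.Language.{u, v}} (T : L.Theory) : Prop :=
  ∃ (m n : ℕ) (φ : L.Formula (Fin m ⊕ Fin n)) (M : FirstOrder.Language.Theory.ModelType.{u, v, w} T)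
    (a : S → Fin n → M),
    ∀ s t : S, (∀ c : Fin m → M, φ.Realize (Sum.elim c (a s)) → φ.Realize (Sum.elim c (a t))) ↔
      s ≤ t

end Pool.Agent.P.MP_4a08ba_lc
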