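import Pool.Agent.P.MP_4a08ba_lc.Defs
import Pool.Agent.P.MP_4a08ba_lc.Comb

namespace Pool.Agent.P.MP_4a08ba_lc

open FirstOrder FirstOrder.Language Filter

universe u v w

variable {L : FirstOrder.Language.{u, v}}

/- the inclusion formula -/
noncomputable def incl {α β : Type} [Finite α] (χ : L.Formula (α ⊕ β)) : L.Formula (β ⊕ β) :=
  Formula.iAlls α
    ((χ.relabel (Sum.elim Sum.inr (Sum.inl ∘ Sum.inl))).imp
      (χ.relabel (Sum.elim Sum.inr (Sum.inl ∘ Sum.inr))))

theorem realize_incl {α β : Type} [Finite α] (χ : L.Formula (α ⊕ β)) {M : Type*} [L.Structure M]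
    (z : β ⊕ β → M) :
    (incl χ).Realize z ↔ ∀ c : α → M, χ.Realize (Sum.elim c (z ∘ Sum.inl)) →
      χ.Realize (Sum.elim c (z ∘ Sum.inr)) := by
  simp only [incl, Formula.realize_iAlls, Formula.realize_imp, Formula.realize_relabel]
  refine forall_congr' fun c => ?_
  have h1 : ((fun a => Sum.elim z c a) ∘ Sum.elim Sum.inr (Sum.inl ∘ Sum.inl)) =
      Sum.elim c (z ∘ Sum.inl) := by
    ext (i | i) <;> rfl
  have h2 : ((fun a => Sum.elim z c a) ∘ Sum.elim Sum.inr (Sum.inl ∘ Sum.inr)) =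
      Sum.elim c (z ∘ Sum.inr) := by
    ext (i | i) <;> rfl
  rw [h1, h2]

theorem sop_of_finite_fin {S : Type} [PartialOrder S] [Countable S] {T : L.Theory}
    (M : Theory.ModelType.{u, v, w} T) {m n : ℕ} (χ : L.Formula (Fin m ⊕ Fin n))
    (h : ∀ E : Finset S, ∃ a : S → Fin n → M, ∀ s ∈ E, ∀ t ∈ E,
      (∀ c : Fin m → M, χ.Realize (Sum.elim c (a s)) → χ.Realize (Sum.elim c (a t))) ↔ s ≤ t) :
    HasSOP.{u, v, w} S T := by
  classical
  let N := (hyperfilter ℕ : Filter ℕ).Product (fun _ : ℕ => M)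
  have : N ⊨ T := by
    rw [Theory.model_iff]
    intro φ hφ
    rw [Ultraproduct.sentence_realize]
    exact Eventually.of_forall fun _ => Theory.realize_sentence_of_mem T hφ
  obtain ⟨a, ha⟩ := sat (W := S → Fin n → M) (J := S × S)
    (fun j _ a => (∀ c : Fin m → M, χ.Realize (Sum.elim c (a j.1)) →
      χ.Realize (Sum.elim c (a j.2))) ↔ j.1 ≤ j.2) (by
      intro s
      obtain ⟨a, ha⟩ := h (s.image Prod.fst ∪ s.image Prod.snd)
      exact Eventually.of_forall fun _ => ⟨a, fun j hj => ha _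
        (Finset.mem_union_left _ (Finset.mem_image_of_mem _ hj)) _
        (Finset.mem_union_right _ (Finset.mem_image_of_mem _ hj))⟩)
  refine ⟨m, n, χ, Theory.ModelType.of T N, fun s i => ((fun t => a t s i : ℕ → M) : N),
    fun s s' => ?_⟩
  let x : Fin n ⊕ Fin n → ℕ → M := Sum.elim (fun i t => a t s i) (fun i t => a t s' i)
  have h1 := Ultraproduct.realize_formula_cast (u := hyperfilter ℕ) (M := fun _ : ℕ => M)
    (incl χ) x
  rw [realize_incl] at h1
  simp only [realize_incl] at h1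
  refine h1.trans ?_
  have h2 := ha (s, s')
  constructor
  · intro h3
    obtain ⟨t, ht1, ht2⟩ := (h3.and h2).exists
    exact ht2.mp ht1
  · intro h3
    exact h2.mono fun t ht => ht.mpr h3

theorem sop_of_finite {S : Type} [PartialOrder S] [Countable S] {T : L.Theory}
    (M : Theory.ModelType.{u, v, w} T) {γ : Type} [Finite γ] (le : (γ → M) → (γ → M) → Prop)
    (hdef : (∅ : Set M).Definable L {v : γ ⊕ γ → M | le (v ∘ Sum.inl) (v ∘ Sum.inr)})
    (hrefl : ∀ z, le z z) (htrans : ∀ x y z, le x y → le y z → le x z)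
    (h : ∀ E : Finset S, ∃ a : S → γ → M, ∀ s ∈ E, ∀ t ∈ E, le (a s) (a t) ↔ s ≤ t) :
    HasSOP.{u, v, w} S T := by
  obtain ⟨n, ⟨e⟩⟩ := Finite.exists_equiv_fin γ
  obtain ⟨θ, hθ⟩ := Set.empty_definable_iff.mp hdef
  have hθ' : ∀ x y : Fin n → M, (θ.relabel (Sum.map e e)).Realize (Sum.elim x y) ↔
      le (x ∘ e) (y ∘ e) := by
    intro x y
    rw [Formula.realize_relabel]
    exact (Set.ext_iff.mp hθ (Sum.elim x y ∘ Sum.map e e)).symm
  refine sop_of_finite_fin M (θ.relabel (Sum.map e e)) fun E => ?_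
  obtain ⟨a, ha⟩ := h E
  refine ⟨fun s => a s ∘ e.symm, fun s hs t ht => ?_⟩
  simp only [hθ']
  have h1 : ∀ s, (a s ∘ e.symm) ∘ e = a s := fun s => by ext i; simp
  simp only [h1]
  rw [← ha s hs t ht]
  constructor
  · intro h2
    have := h2 (a s ∘ e.symm)
    rw [h1] at this
    exact this (hrefl _)
  · exact fun h2 c hc => htrans _ _ _ hc h2

section DefP

variable (L) {M : Type w} [L.Structure M]

def DefP {δ : Type} (P : (δ → M) → Prop) : Prop := (∅ : Set M).Definable L {v | P v}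

variable {L} {δ : Type} {P Q : (δ → M) → Prop}

theorem DefP.and (hP : DefP L P) (hQ : DefP L Q) : DefP L fun v => P v ∧ Q v :=
  Set.Definable.inter hP hQ

theorem DefP.or (hP : DefP L P) (hQ : DefP L Q) : DefP L fun v => P v ∨ Q v :=
  Set.Definable.union hP hQ

theorem DefP.not (hP : DefP L P) : DefP L fun v => ¬ P v :=
  Set.Definable.compl hP

theorem DefP.eq (i j : δ) : DefP L fun v : δ → M => v i = v j :=
  Set.empty_definable_iff.mpr ⟨Term.equal (Term.var i) (Term.var j), by ext v; simp⟩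

theorem DefP.all {ι : Type} [Finite ι] {P : ι → (δ → M) → Prop} (h : ∀ i, DefP L (P i)) :
    DefP L fun v => ∀ i, P i v := by
  have := Set.definable_iInter_of_finite (A := (∅ : Set M)) (L := L) h
  unfold DefP
  convert this using 1
  ext v
  simp

theorem DefP.ex {β : Type} [Finite β] {P : (δ ⊕ β → M) → Prop} (h : DefP L P) :
    DefP L fun v => ∃ y : β → M, P (Sum.elim v y) :=
  Set.Definable.exists_of_finite h

theorem DefP.realize {α β : Type} (φ : L.Formula (α ⊕ β)) (f : α → δ) (g : β → δ) :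
    DefP L fun v : δ → M => φ.Realize (Sum.elim (v ∘ f) (v ∘ g)) :=
  Set.empty_definable_iff.mpr ⟨φ.relabel (Sum.elim f g), by
    ext v
    simp only [Set.mem_ofPred_eq, Formula.realize_relabel]
    rw [Sum.comp_elim]⟩

end DefP

end Pool.Agent.P.MP_4a08ba_lc
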