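import Pool.Agent.P.MP_4a08ba_lc.Logic
import Pool.Agent.P.MP_4a08ba_lc.Config

namespace Pool.Agent.P.MP_4a08ba_lc

open FirstOrder FirstOrder.Language

universe u v w

/- three copies of the non-root nodes of the tree -/
def Sig : Type := Fin 3 × List ℕ × ℕ

instance : Countable Sig := inferInstanceAs (Countable (Fin 3 × List ℕ × ℕ))

def Sig.node (s : Sig) : List ℕ := s.2.1 ++ [s.2.2]

def Sig.lt (s t : Sig) : Prop :=
  (s.1 = 0 ∧ t.1 = 1 ∧ t.node <+: s.node) ∨ (s.1 = 0 ∧ t.1 = 2 ∧ ¬ t.node <+: s.node) ∨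
    (s.1 = 1 ∧ t.1 = 2 ∧ s.2.1 = t.2.1 ∧ s.2.2 ≠ t.2.2)

theorem Sig.lt_fst {s t : Sig} (h : s.lt t) : s.1 < t.1 := by
  rcases h with ⟨h1, h2, -⟩ | ⟨h1, h2, -⟩ | ⟨h1, h2, -⟩ <;> rw [h1, h2] <;> decide

theorem Sig.lt_trans {s t r : Sig} (h : s.lt t) (h' : t.lt r) : s.lt r := by
  rcases h with ⟨h1, h2, h3⟩ | ⟨h1, h2, h3⟩ | ⟨h1, h2, h3⟩ <;>
    rcases h' with ⟨h4, h5, h6⟩ | ⟨h4, h5, h6⟩ | ⟨h4, h5, h6⟩ <;>
    try (exfalso; rw [h2] at h4; revert h4; decide)
  refine Or.inr (Or.inl ⟨h1, h5, fun h7 => h6.2 ?_⟩)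
  have hl : t.node.length = r.node.length := by simp [Sig.node, h6.1]
  have := (List.prefix_of_prefix_length_le h3 h7 hl.le).eq_of_length hl
  simpa [Sig.node, h6.1] using this

instance : PartialOrder Sig where
  le s t := s = t ∨ s.lt t
  le_refl s := Or.inl rfl
  le_trans s t r h h' := by
    rcases h with rfl | h
    · exact h'
    rcases h' with rfl | h'
    · exact Or.inr h
    exact Or.inr (Sig.lt_trans h h')
  le_antisymm s t h h' := by
    rcases h with h | h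
    · exact h
    rcases h' with h' | h'
    · exact h'.symm
    exact absurd (Sig.lt_fst h) (not_lt.mpr (Sig.lt_fst h').le)

theorem Sig.le_def {s t : Sig} : s ≤ t ↔ s = t ∨ s.lt t := Iff.rfl

variable {L : FirstOrder.Language.{u, v}}

theorem tp_of_sop {T : L.Theory} (h : HasSOP.{u, v, w} Sig T) : HasTP.{u, v, w} T := by
  obtain ⟨m, n, φ, M, a, ha⟩ := h
  let le : (Fin n → M) → (Fin n → M) → Prop := fun y z =>
    ∀ c : Fin m → M, φ.Realize (Sum.elim c y) → φ.Realize (Sum.elim c z)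
  let ψ : L.Formula (Fin n ⊕ Fin (n + n)) :=
    (incl φ).relabel (Sum.map id (Fin.castAdd n)) ⊓
      ((incl φ).relabel (Sum.map id (Fin.natAdd n))).not
  have hψ : ∀ y z z' : Fin n → M, ψ.Realize (Sum.elim y (Fin.append z z')) ↔
      le y z ∧ ¬ le y z' := by
    intro y z z'
    have h1 : (Sum.elim y (Fin.append z z') ∘ Sum.map id (Fin.castAdd n)) ∘ Sum.inr = z := by
      ext i; simp
    have h2 : (Sum.elim y (Fin.append z z') ∘ Sum.map id (Fin.natAdd n)) ∘ Sum.inr = z' := by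
      ext i; exact Fin.append_right z z' i
    simp only [ψ, Formula.realize_inf, Formula.realize_not, Formula.realize_relabel, realize_incl,
      h1, h2]
    rfl
  let sg : Fin 3 → List ℕ → Sig := fun j η => (j, (0 :: η).dropLast, (0 :: η).getLast (by simp))
  have hsg : ∀ j η, (sg j η).node = 0 :: η := fun j η => List.dropLast_append_getLast _
  refine ⟨n, n + n, ψ, M, fun η => Fin.append (a (sg 1 η)) (a (sg 2 η)), fun β s hs => ?_,
    2, fun η s hs hcon => ?_⟩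
  · have : ∀ y : s, ∃ j : ℕ, Fin.append (a (sg 1 ((List.range j).map β)))
        (a (sg 2 ((List.range j).map β))) = y := fun y => hs y.2
    choose f hf using this
    let J := Finset.univ.sup f
    refine ⟨a (sg 0 ((List.range J).map β)), fun y hy => ?_⟩
    have hfy : _ = y := hf ⟨y, hy⟩
    have hp : (0 :: (List.range (f ⟨y, hy⟩)).map β) <+: 0 :: (List.range J).map β := by
      rw [List.cons_prefix_cons]
      refine ⟨rfl, List.IsPrefix.map _ ?_⟩
      have hle : f ⟨y, hy⟩ ≤ J := Finset.le_sup (Finset.mem_univ _)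
      rw [← min_eq_left hle, ← List.take_range]
      exact List.take_prefix _ _
    rw [← hfy, hψ]
    constructor
    · refine (ha _ _).mpr (Or.inr (Or.inl ⟨rfl, rfl, ?_⟩))
      rwa [hsg, hsg]
    · intro hle
      rcases (ha _ _).mp hle with h | h | h | h
      · exact absurd (congrArg Prod.fst h) (by simp [sg])
      · exact absurd h.2.1 (by simp [sg])
      · rw [hsg, hsg] at h
        exact h.2.2 hp
      · exact absurd h.1 (by simp [sg])
  · classical
    obtain ⟨i, j, hij, rfl⟩ := Finset.card_eq_two.mp hs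
    obtain ⟨c, hc⟩ := hcon (({i, j} : Finset ℕ).image fun i =>
      Fin.append (a (sg 1 (η ++ [i]))) (a (sg 2 (η ++ [i])))) (Finset.coe_image.le)
    have h1 := (hψ _ _ _).mp (hc _ (Finset.mem_image_of_mem _ (Finset.mem_insert_self i {j})))
    have h2 := (hψ _ _ _).mp (hc _ (Finset.mem_image_of_mem _
      (Finset.mem_insert_of_mem (Finset.mem_singleton_self j))))
    have h3 : sg 1 (η ++ [i]) ≤ sg 2 (η ++ [j]) := by
      refine Or.inr (Or.inr (Or.inr ⟨rfl, rfl, ?_, ?_⟩))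
      · simp only [sg, ← List.cons_append, List.dropLast_concat]
      · simpa only [sg, ← List.cons_append, List.getLast_concat] using hij
    exact h2.2 fun x hx => (ha _ _).mpr h3 x (h1.1 x hx)

section Enc

variable {M : Type w} {mx ny m : ℕ}

abbrev Gam (mx ny m : ℕ) : Type :=
  Fin 5 ⊕ ((Fin mx ⊕ Fin mx ⊕ Fin mx) ⊕ ((Fin m × Fin ny) ⊕ Fin ny ⊕ Fin ny))

def xs (z : Gam mx ny m → M) : (Fin mx → M) × (Fin mx → M) × (Fin mx → M) :=
  (fun i => z (.inr (.inl (.inl i))), fun i => z (.inr (.inl (.inr (.inl i)))),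
    fun i => z (.inr (.inl (.inr (.inr i)))))

def ys (z : Gam mx ny m → M) : (Fin m → Fin ny → M) × (Fin ny → M) × (Fin ny → M) :=
  (fun l i => z (.inr (.inr (.inl (l, i)))), fun i => z (.inr (.inr (.inr (.inl i)))),
    fun i => z (.inr (.inr (.inr (.inr i)))))

def enc (l : Fin 5 → M) (x : (Fin mx → M) × (Fin mx → M) × (Fin mx → M))
    (y : (Fin m → Fin ny → M) × (Fin ny → M) × (Fin ny → M)) : Gam mx ny m → M :=
  Sum.elim l (Sum.elim (Sum.elim x.1 (Sum.elim x.2.1 x.2.2))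
    (Sum.elim (fun p => y.1 p.1 p.2) (Sum.elim y.2.1 y.2.2)))

def PhiZ (R : (Fin mx → M) → (Fin ny → M) → Prop) (z z' : Gam mx ny m → M) : Prop :=
  Phi R (xs z) (ys z')

def leZ (R : (Fin mx → M) → (Fin ny → M) → Prop) (z z' : Gam mx ny m → M) : Prop :=
  (∀ i, z i = z' i) ∨
  (z (.inl 0) = z (.inl 1) ∧ (¬ z' (.inl 0) = z' (.inl 1) ∧ z' (.inl 0) = z' (.inl 2)) ∧
    PhiZ R z z') ∨
  (z (.inl 0) = z (.inl 1) ∧ (¬ z' (.inl 0) = z' (.inl 1) ∧ ¬ z' (.inl 0) = z' (.inl 2)) ∧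
    ¬ PhiZ R z z') ∨
  ((¬ z (.inl 0) = z (.inl 1) ∧ z (.inl 0) = z (.inl 2)) ∧
    (¬ z' (.inl 0) = z' (.inl 1) ∧ ¬ z' (.inl 0) = z' (.inl 2)) ∧
    z (.inl 3) = z' (.inl 3) ∧ ¬ ∃ y : Gam mx ny m → M, PhiZ R y z ∧ PhiZ R y z')

theorem leZ_trans (R : (Fin mx → M) → (Fin ny → M) → Prop) (x y z : Gam mx ny m → M)
    (h : leZ R x y) (h' : leZ R y z) : leZ R x z := by
  rcases h with h | h
  · obtain rfl : x = y := funext h
    exact h'
  rcases h' with h' | h'
  · obtain rfl : y = z := funext h'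
    exact Or.inr h
  rcases h with h | h | h <;> rcases h' with h' | h' | h'
  · exact absurd h'.1 h.2.1.1
  · exact absurd h'.1 h.2.1.1
  · exact Or.inr (Or.inr (Or.inl ⟨h.1, h'.2.1, fun hz => h'.2.2.2 ⟨x, h.2.2, hz⟩⟩))
  · exact absurd h'.1 h.2.1.1
  · exact absurd h'.1 h.2.1.1
  · exact absurd h'.1.2 h.2.1.2
  · exact absurd h'.1 h.2.1.1
  · exact absurd h'.1 h.2.1.1
  · exact absurd h'.1.2 h.2.1.2

variable [L.Structure M] (φ : L.Formula (Fin mx ⊕ Fin ny))

theorem defP_PhiZ {δ : Type} (f g : Gam mx ny m → δ) :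
    DefP L fun v : δ → M => PhiZ (fun x y => φ.Realize (Sum.elim x y)) (v ∘ f) (v ∘ g) :=
  (DefP.all fun l => DefP.realize φ (fun i => f (.inr (.inl (.inl i))))
      (fun i => g (.inr (.inr (.inl (l, i)))))).and
    ((DefP.realize φ (fun i => f (.inr (.inl (.inr (.inl i)))))
      (fun i => g (.inr (.inr (.inr (.inl i)))))).and
    (DefP.realize φ (fun i => f (.inr (.inl (.inr (.inr i)))))
      (fun i => g (.inr (.inr (.inr (.inr i)))))))

theorem defP_leZ : DefP L fun v : Gam mx ny m ⊕ Gam mx ny m → M =>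
    leZ (fun x y => φ.Realize (Sum.elim x y)) (v ∘ Sum.inl) (v ∘ Sum.inr) :=
  (DefP.all fun i => DefP.eq (.inl i) (.inr i)).or
    (((DefP.eq _ _).and (((DefP.eq _ _).not.and (DefP.eq _ _)).and (defP_PhiZ φ _ _))).or
    (((DefP.eq _ _).and (((DefP.eq _ _).not.and (DefP.eq _ _).not).and (defP_PhiZ φ _ _).not)).or
    (((DefP.eq _ _).not.and (DefP.eq _ _)).and (((DefP.eq _ _).not.and (DefP.eq _ _).not).and
      ((DefP.eq _ _).and (DefP.ex ((defP_PhiZ φ Sum.inr (Sum.inl ∘ Sum.inl)).and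
        (defP_PhiZ φ Sum.inr (Sum.inl ∘ Sum.inr)))).not)))))

end Enc

theorem sop_of_tp {T : L.Theory} (h : HasTP.{u, v, w} T) : HasSOP.{u, v, w} Sig T := by
  classical
  obtain ⟨mx, ny, φ, M, a, hcon, k, hinc⟩ := h
  let R : (Fin mx → M) → (Fin ny → M) → Prop := fun x y => φ.Realize (Sum.elim x y)
  have h1 : ∀ η : List ℕ, ∃ x, ∀ ν, ν <+: η → R x (a ν) := by
    intro η
    obtain ⟨x, hx⟩ := hcon (fun i => η.getD i 0) (η.inits.toFinset.image a) (by
      intro y hy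
      obtain ⟨ν, hν, rfl⟩ := Finset.mem_image.mp hy
      have hν' : ν <+: η := by simpa using hν
      refine ⟨ν.length, ?_⟩
      have : (List.range ν.length).map (fun i => η.getD i 0) = ν := by
        apply List.ext_getElem (by simp)
        intro i hi1 hi2
        have hi3 : i < η.length := hi2.trans_le hν'.length_le
        simp [hν'.getElem hi2, hi3]
      simp only [this])
    exact ⟨x, fun ν hν => hx _ (Finset.mem_image_of_mem _ (by simpa using hν))⟩
  have h2 : ∀ (η : List ℕ) (s : Finset ℕ), k ≤ s.card →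
      ¬ ∃ x, ∀ i ∈ s, R x (a (η ++ [i])) := by
    rintro η s hs ⟨x, hx⟩
    obtain ⟨s', hs', hk⟩ := Finset.exists_subset_card_eq hs
    refine hinc η s' hk fun t ht => ⟨x, fun y hy => ?_⟩
    obtain ⟨i, hi, rfl⟩ := ht hy
    exact hx i (hs' hi)
  obtain ⟨m, hm⟩ := config h1 h2
  have hinf : Infinite M := by
    obtain ⟨u, v, huv⟩ := ladder h1 h2
    have hu : Function.Injective u := by
      intro i j hij
      exact le_antisymm ((huv j i).mp (hij ▸ (huv i i).mpr le_rfl))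
        ((huv i j).mp (hij ▸ (huv j j).mpr le_rfl))
    by_contra hfin
    rw [not_infinite_iff_finite] at hfin
    exact not_finite_iff_infinite.mpr (Infinite.of_injective u hu) inferInstance
  obtain ⟨e1, he1⟩ := Countable.exists_injective_nat (List ℕ)
  obtain ⟨e2, he2⟩ := Countable.exists_injective_nat Sig
  let p : ℕ ↪ M := Infinite.natEmbedding M
  refine sop_of_finite M (γ := Gam mx ny m) (leZ R) (defP_leZ φ) (fun z => Or.inl fun _ => rfl)
    (leZ_trans R) fun E => ?_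
  obtain ⟨c, b, hcb, hb⟩ := hm (E.image Sig.node)
  let lab : Sig → Fin 5 → M := fun s =>
    ![p 0, if s.1 = 0 then p 0 else p 1, if s.1 = 2 then p 1 else p 0, p (e1 s.2.1), p (e2 s)]
  let z : Sig → Gam mx ny m → M := fun s => enc (lab s) (c s.node) (b s.node)
  have hp01 : p 0 ≠ p 1 := fun h => absurd (p.injective h) (by decide)
  have hz1 : ∀ s, z s (.inl 0) = z s (.inl 1) ↔ s.1 = 0 := by
    intro s
    change p 0 = (if s.1 = 0 then p 0 else p 1) ↔ _
    split_ifs with h <;> simp [h, hp01]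
  have hz2 : ∀ s, z s (.inl 0) = z s (.inl 2) ↔ ¬ s.1 = 2 := by
    intro s
    change p 0 = (if s.1 = 2 then p 1 else p 0) ↔ _
    split_ifs with h <;> simp [h, hp01]
  have hz3 : ∀ s t, z s (.inl 3) = z t (.inl 3) ↔ s.2.1 = t.2.1 := by
    intro s t
    change p (e1 s.2.1) = p (e1 t.2.1) ↔ _
    rw [p.injective.eq_iff, he1.eq_iff]
  have hz4 : ∀ s t, (∀ i, z s i = z t i) ↔ s = t := by
    intro s t
    refine ⟨fun h => he2 (p.injective (h (.inl 4))), ?_⟩
    rintro rfl i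
    rfl
  have hPhi : ∀ s ∈ E, ∀ t ∈ E, PhiZ R (z s) (z t) ↔ t.node <+: s.node := fun s hs t ht =>
    hcb _ (Finset.mem_image_of_mem _ hs) _ (Finset.mem_image_of_mem _ ht) (by simp [Sig.node])
  have hsib : ∀ s ∈ E, ∀ t ∈ E, s.2.1 = t.2.1 →
      ((¬ ∃ y : Gam mx ny m → M, PhiZ R y (z s) ∧ PhiZ R y (z t)) ↔ s.2.2 ≠ t.2.2) := by
    intro s hs t ht hst
    constructor
    · intro h heq
      have hn : t.node = s.node := by simp [Sig.node, hst, heq]
      exact h ⟨z s, (hPhi s hs s hs).mpr List.prefix_rfl, (hPhi s hs t ht).mpr (hn ▸ List.prefix_rfl)⟩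
    · rintro hne ⟨y, hy1, hy2⟩
      have hn : t.node = s.2.1 ++ [t.2.2] := by simp [Sig.node, hst]
      refine hb s.2.1 s.2.2 t.2.2 (Finset.mem_image_of_mem _ hs)
        (hn ▸ Finset.mem_image_of_mem _ ht) hne ⟨xs y, hy1, ?_⟩
      rw [← hn]
      exact hy2
  have h3 : ∀ j : Fin 3, (¬ j = 0 ∧ ¬ j = 2 ↔ j = 1) ∧ (¬ j = 0 ∧ ¬ ¬ j = 2 ↔ j = 2) := by decide
  refine ⟨z, fun s hs t ht => ?_⟩
  rw [Sig.le_def, leZ, hz4, hz1, hz1, hz2, hz2, hz3, hPhi s hs t ht, (h3 _).1, (h3 _).1, (h3 _).2,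
    Sig.lt]
  refine or_congr Iff.rfl (or_congr Iff.rfl (or_congr Iff.rfl ?_))
  refine and_congr Iff.rfl (and_congr Iff.rfl (and_congr_right fun hst => hsib s hs t ht hst))

theorem main : ∃ (S : Type) (_ : PartialOrder S), ∀ (L : FirstOrder.Language.{u, v})
    (T : L.Theory), HasTP.{u, v, w} T ↔ HasSOP.{u, v, w} S T :=
  ⟨Sig, inferInstance, fun _ _ => ⟨sop_of_tp, tp_of_sop⟩⟩

end Pool.Agent.P.MP_4a08ba_lc
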