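import Pool.Agent.P.MP_4a08ba_lc.PatDefs
import Pool.Agent.P.MP_4a08ba_lc.Logic

namespace Pool.Agent.P.MP_4a08ba_lc

open FirstOrder FirstOrder.Language Filter

universe u v w

variable {L : FirstOrder.Language.{u, v}}

theorem sop_fin_any {S : Type} [PartialOrder S] {T : L.Theory}
    (M : Theory.ModelType.{u, v, w} T) {m n : ℕ} (χ : L.Formula (Fin m ⊕ Fin n))
    (h : ∀ E : Finset S, ∃ a : S → Fin n → M, ∀ s ∈ E, ∀ t ∈ E,
      (∀ c : Fin m → M, χ.Realize (Sum.elim c (a s)) → χ.Realize (Sum.elim c (a t))) ↔ s ≤ t) :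
    HasSOP.{u, v, w} S T := by
  classical
  let U : Ultrafilter (Finset S) := Ultrafilter.of atTop
  let N := (U : Filter (Finset S)).Product (fun _ => M)
  have : N ⊨ T := by
    rw [Theory.model_iff]
    intro φ hφ
    rw [Ultraproduct.sentence_realize]
    exact Eventually.of_forall fun _ => Theory.realize_sentence_of_mem T hφ
  choose a ha using h
  refine ⟨m, n, χ, Theory.ModelType.of T N, fun s i => ((fun t => a t s i : Finset S → M) : N),
    fun s s' => ?_⟩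
  let x : Fin n ⊕ Fin n → Finset S → M := Sum.elim (fun i t => a t s i) (fun i t => a t s' i)
  have h1 := Ultraproduct.realize_formula_cast (u := U) (M := fun _ => M) (incl χ) x
  rw [realize_incl] at h1
  simp only [realize_incl] at h1
  refine h1.trans ?_
  have h2 : ∀ᶠ t in (U : Filter (Finset S)), s ∈ t ∧ s' ∈ t :=
    (Ultrafilter.of_le atTop) ((eventually_ge_atTop ({s, s'} : Finset S)).mono fun t ht =>
      ⟨ht (by simp), ht (by simp)⟩)
  constructor
  · intro h3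
    obtain ⟨t, ht1, ht2⟩ := (h3.and h2).exists
    exact (ha t s ht2.1 s' ht2.2).mp ht1
  · intro h3
    exact h2.mono fun t ht => (ha t s ht.1 s' ht.2).mpr h3

theorem sop_any {S : Type} [PartialOrder S] {T : L.Theory}
    (M : Theory.ModelType.{u, v, w} T) {γ : Type} [Finite γ] (le : (γ → M) → (γ → M) → Prop)
    (hdef : (∅ : Set M).Definable L {v : γ ⊕ γ → M | le (v ∘ Sum.inl) (v ∘ Sum.inr)})
    (hrefl : ∀ z, le z z) (htrans : ∀ x y z, le x y → le y z → le x z)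
    (h : ∀ E : Finset S, ∃ a : S → γ → M, ∀ s ∈ E, ∀ t ∈ E, le (a s) (a t) ↔ s ≤ t) :
    HasSOP.{u, v, w} S T := by
  obtain ⟨n, ⟨e⟩⟩ := Finite.exists_equiv_fin γ
  obtain ⟨θ, hθ⟩ := Set.empty_definable_iff.mp hdef
  have hθ' : ∀ x y : Fin n → M, (θ.relabel (Sum.map e e)).Realize (Sum.elim x y) ↔
      le (x ∘ e) (y ∘ e) := by
    intro x y
    rw [Formula.realize_relabel]
    exact (Set.ext_iff.mp hθ (Sum.elim x y ∘ Sum.map e e)).symm
  refine sop_fin_any M (θ.relabel (Sum.map e e)) fun E => ?_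
  obtain ⟨a, ha⟩ := h E
  refine ⟨fun s => a s ∘ e.symm, fun s hs t ht => ?_⟩
  simp only [hθ']
  have h1 : ∀ s, (a s ∘ e.symm) ∘ e = a s := fun s => by ext i; simp
  simp only [h1]
  rw [← ha s hs t ht]
  constructor
  · intro h2
    have := h2 (a s ∘ e.symm)
    rw [h1] at this
    exact this (hrefl _)
  · exact fun h2 c hc => htrans _ _ _ hc h2

open Classical in
/- the sentence saying that `ρ` realises the finite bipartite graph `R` -/
noncomputable def graphSent {m n : ℕ} (ρ : L.Formula (Fin m ⊕ Fin n)) {A : Type} [Finite A]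
    (R : A → A → Prop) : L.Sentence :=
  Formula.iExs ((A × Fin m) ⊕ (A × Fin n)) (Formula.iInf fun p : A × A =>
    let χ : L.Formula (Empty ⊕ ((A × Fin m) ⊕ (A × Fin n))) :=
      ρ.relabel (Sum.inr ∘ Sum.map (fun i => (p.1, i)) (fun i => (p.2, i)))
    if R p.1 p.2 then χ else χ.not)

theorem realize_graphSent {m n : ℕ} (ρ : L.Formula (Fin m ⊕ Fin n)) {A : Type} [Finite A]
    (R : A → A → Prop) (M : Type*) [L.Structure M] : M ⊨ graphSent ρ R ↔
      ∃ (x : A → Fin m → M) (y : A → Fin n → M), ∀ a b,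
        ρ.Realize (Sum.elim (x a) (y b)) ↔ R a b := by
  classical
  have key : ∀ (z : (A × Fin m) ⊕ (A × Fin n) → M) (a b : A),
      (fun c => Sum.elim (default : Empty → M) z c) ∘
        (Sum.inr ∘ Sum.map (fun i => (a, i)) (fun i => (b, i))) =
      Sum.elim (fun i => z (.inl (a, i))) (fun i => z (.inr (b, i))) := fun z a b => by
    ext (i | i) <;> rfl
  simp only [graphSent, Sentence.Realize, Formula.realize_iExs, Formula.realize_iInf]
  constructor
  · rintro ⟨z, hz⟩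
    refine ⟨fun a i => z (.inl (a, i)), fun b i => z (.inr (b, i)), fun a b => ?_⟩
    have := hz (a, b)
    by_cases h : R a b
    · rw [if_pos h, Formula.realize_relabel, key] at this
      exact iff_of_true this h
    · rw [if_neg h, Formula.realize_not, Formula.realize_relabel, key] at this
      exact iff_of_false this h
  · rintro ⟨x, y, h⟩
    refine ⟨Sum.elim (fun p => x p.1 p.2) (fun p => y p.1 p.2), fun p => ?_⟩
    by_cases g : R p.1 p.2
    · rw [if_pos g, Formula.realize_relabel, key]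
      exact (h _ _).2 g
    · rw [if_neg g, Formula.realize_not, Formula.realize_relabel, key]
      exact fun k => g ((h _ _).1 k)

theorem graphs_of_ip {T : L.Theory} (hT : T.IsComplete) (h : HasIP.{u, v, w} T)
    (M : Theory.ModelType.{u, v, w} T) : ∃ (m n : ℕ) (ρ : L.Formula (Fin m ⊕ Fin n)),
      ∀ (A : Type) [Finite A] (R : A → A → Prop), ∃ (x : A → Fin m → M) (y : A → Fin n → M),
        ∀ a b, ρ.Realize (Sum.elim (x a) (y b)) ↔ R a b := by
  obtain ⟨m, n, ρ, N, a, b, hab⟩ := h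
  refine ⟨m, n, ρ, fun A _ R => (realize_graphSent ρ R M).1 ?_⟩
  obtain ⟨e, he⟩ := Countable.exists_injective_nat A
  have hN : N ⊨ graphSent ρ R := (realize_graphSent ρ R N).2
    ⟨fun s => a (e s), fun t => b (e '' {s | R s t}), fun s t =>
      (hab _ _).trans he.mem_set_image⟩
  rcases hT.2 (graphSent ρ R) with g | g
  · exact g.realize_sentence M
  · exact absurd hN ((Sentence.realize_not N).1 (g.realize_sentence N))

theorem ex_psi {m n : ℕ} (φ : L.Formula (Fin m ⊕ Fin n)) : ∃ ψ : L.Formula (Fin n ⊕ Fin (n + n)),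
    ∀ (M : Type w) [L.Structure M] (y z z' : Fin n → M), ψ.Realize (Sum.elim y (Fin.append z z')) ↔
      (∀ c : Fin m → M, φ.Realize (Sum.elim c y) → φ.Realize (Sum.elim c z)) ∧
      ¬ ∀ c : Fin m → M, φ.Realize (Sum.elim c y) → φ.Realize (Sum.elim c z') := by
  refine ⟨(incl φ).relabel (Sum.map id (Fin.castAdd n)) ⊓
    ((incl φ).relabel (Sum.map id (Fin.natAdd n))).not, fun M _ y z z' => ?_⟩
  have h1 : (Sum.elim y (Fin.append z z') ∘ Sum.map id (Fin.castAdd n)) ∘ Sum.inr = z := by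
    ext i; simp
  have h2 : (Sum.elim y (Fin.append z z') ∘ Sum.map id (Fin.natAdd n)) ∘ Sum.inr = z' := by
    ext i; exact Fin.append_right z z' i
  simp only [Formula.realize_inf, Formula.realize_not, Formula.realize_relabel, realize_incl,
    h1, h2]
  rfl

theorem ex_chi {m n : ℕ} (φ : L.Formula (Fin m ⊕ Fin n)) : ∃ ψ : L.Formula (Fin n ⊕ Fin (n + n)),
    ∀ (M : Type w) [L.Structure M] (y z z' : Fin n → M), ψ.Realize (Sum.elim y (Fin.append z z')) ↔
      ((∀ c : Fin m → M, φ.Realize (Sum.elim c y) → φ.Realize (Sum.elim c z)) ↔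
      ∀ c : Fin m → M, φ.Realize (Sum.elim c z) → φ.Realize (Sum.elim c z')) := by
  refine ⟨((incl φ).relabel (Sum.map id (Fin.castAdd n))).iff ((incl φ).relabel
    (Sum.inr ∘ Sum.elim (Fin.castAdd n) (Fin.natAdd n))), fun M _ y z z' => ?_⟩
  have h1 : (Sum.elim y (Fin.append z z') ∘ Sum.map id (Fin.castAdd n)) ∘ Sum.inr = z := by
    ext i; simp
  have h2 : (Sum.elim y (Fin.append z z') ∘ Sum.inr ∘ Sum.elim (Fin.castAdd n) (Fin.natAdd n)) ∘
      Sum.inr = z' := by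
    ext i; exact Fin.append_right z z' i
  have h3 : (Sum.elim y (Fin.append z z') ∘ Sum.inr ∘ Sum.elim (Fin.castAdd n) (Fin.natAdd n)) ∘
      Sum.inl = z := by
    ext i; exact Fin.append_left z z' i
  simp only [Formula.realize_iff, Formula.realize_relabel, realize_incl, h1, h2, h3]
  rfl

section Poset

variable {J : Type} (C : Set (Set J)) (I : J → J → Prop)

/- admissible witness sets -/
def Adm (F : Set (J ⊕ ℕ)) : Prop :=
  (F.Finite ∧ ∃ c ∈ C, F ⊆ Sum.inl '' c) ∨ F ⊆ Set.range Sum.inr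

/- inconsistent pairs of the enlarged pattern -/
def Inc (s t : J ⊕ ℕ) : Prop := ∃ i j, s = .inl i ∧ t = .inl j ∧ I i j

/- the poset of a pattern -/
def Pat (_ : ∀ c ∈ C, ∀ i ∈ c, ∀ j ∈ c, ¬ I i j) : Type :=
  {F // Adm C F} ⊕ (J ⊕ ℕ) ⊕ (J ⊕ ℕ)

variable {C I} {hC : ∀ c ∈ C, ∀ i ∈ c, ∀ j ∈ c, ¬ I i j}

def Pat.lt : Pat C I hC → Pat C I hC → Prop
  | .inl F, .inr (.inl k) => k ∈ F.1
  | .inl F, .inr (.inr k) => k ∉ F.1
  | .inr (.inl k), .inr (.inr l) => Inc I k l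
  | _, _ => False

theorem Pat.lt_trans : ∀ {s t r : Pat C I hC}, s.lt t → t.lt r → s.lt r
  | .inl F, .inr (.inl _), .inr (.inr _), h, ⟨i, j, e, e', g⟩ => fun k => by
    subst e e'
    rcases F.2 with ⟨-, c, hc, hF⟩ | hF
    · obtain ⟨i', h1, h2⟩ := hF h
      obtain ⟨j', h3, h4⟩ := hF k
      exact hC c hc i (Sum.inl_injective h2 ▸ h1) j (Sum.inl_injective h4 ▸ h3) g
    · obtain ⟨_, h1⟩ := hF h
      exact Sum.inr_ne_inl h1
  | .inl _, .inl _, _, h, _ => h.elim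
  | .inl _, .inr (.inl _), .inl _, _, h => h.elim
  | .inl _, .inr (.inl _), .inr (.inl _), _, h => h.elim
  | .inl _, .inr (.inr _), .inl _, _, h => h.elim
  | .inl _, .inr (.inr _), .inr (.inl _), _, h => h.elim
  | .inl _, .inr (.inr _), .inr (.inr _), _, h => h.elim
  | .inr (.inl _), .inl _, _, h, _ => h.elim
  | .inr (.inl _), .inr (.inl _), _, h, _ => h.elim
  | .inr (.inl _), .inr (.inr _), .inl _, _, h => h.elim
  | .inr (.inl _), .inr (.inr _), .inr (.inl _), _, h => h.elim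
  | .inr (.inl _), .inr (.inr _), .inr (.inr _), _, h => h.elim
  | .inr (.inr _), .inl _, _, h, _ => h.elim
  | .inr (.inr _), .inr (.inl _), _, h, _ => h.elim
  | .inr (.inr _), .inr (.inr _), _, h, _ => h.elim

theorem Pat.lt_irrefl : ∀ s : Pat C I hC, ¬ s.lt s
  | .inl _ => id
  | .inr (.inl _) => id
  | .inr (.inr _) => id

instance : PartialOrder (Pat C I hC) where
  le s t := s = t ∨ s.lt t
  le_refl s := Or.inl rfl
  le_trans s t r h h' := by
    rcases h with rfl | h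
    · exact h'
    rcases h' with rfl | h'
    · exact Or.inr h
    exact Or.inr (Pat.lt_trans h h')
  le_antisymm s t h h' := by
    rcases h with h | h
    · exact h
    rcases h' with h' | h'
    · exact h'.symm
    exact absurd (Pat.lt_trans h h') (Pat.lt_irrefl s)

theorem Pat.le_def {s t : Pat C I hC} : s ≤ t ↔ s = t ∨ s.lt t := Iff.rfl

theorem of_sop {T : L.Theory} (h : HasSOP.{u, v, w} (Pat C I hC) T) :
    HasPattern.{u, v, w} C I T ∧ HasIP.{u, v, w} T := by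
  classical
  obtain ⟨m, n, φ, M, a, ha⟩ := h
  let le : (Fin n → M) → (Fin n → M) → Prop := fun y z =>
    ∀ c : Fin m → M, φ.Realize (Sum.elim c y) → φ.Realize (Sum.elim c z)
  have l1 : ∀ F k, le (a (.inl F)) (a (.inr (.inl k))) ↔ k ∈ F.1 := fun F k =>
    (ha _ _).trans (or_iff_right Sum.inl_ne_inr)
  have l2 : ∀ F k, le (a (.inl F)) (a (.inr (.inr k))) ↔ k ∉ F.1 := fun F k =>
    (ha _ _).trans (or_iff_right Sum.inl_ne_inr)
  constructor
  · let ψ : L.Formula (Fin n ⊕ Fin (n + n)) :=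
      (incl φ).relabel (Sum.map id (Fin.castAdd n)) ⊓
        ((incl φ).relabel (Sum.map id (Fin.natAdd n))).not
    have hψ : ∀ y z z' : Fin n → M, ψ.Realize (Sum.elim y (Fin.append z z')) ↔
        le y z ∧ ¬ le y z' := by
      intro y z z'
      have h1 : (Sum.elim y (Fin.append z z') ∘ Sum.map id (Fin.castAdd n)) ∘ Sum.inr = z := by
        ext i; simp
      have h2 : (Sum.elim y (Fin.append z z') ∘ Sum.map id (Fin.natAdd n)) ∘ Sum.inr = z' := by
        ext i; exact Fin.append_right z z' i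
      simp only [ψ, Formula.realize_inf, Formula.realize_not, Formula.realize_relabel,
        realize_incl, h1, h2]
      rfl
    refine ⟨n, n + n, ψ, M, fun j => Fin.append (a (.inr (.inl (.inl j)))) (a (.inr (.inr (.inl j)))),
      fun c hc s hs => ?_, fun i j hij hcon => ?_⟩
    · choose f hf using fun y : s => hs y.2
      refine ⟨a (.inl ⟨Set.range fun y => .inl (f y), Or.inl ⟨Set.finite_range _, c, hc, ?_⟩⟩),
        fun y hy => ?_⟩
      · rintro _ ⟨y, rfl⟩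
        exact ⟨_, (hf y).1, rfl⟩
      · have e : _ = y := (hf ⟨y, hy⟩).2
        rw [← e, hψ, l1, l2, not_not]
        exact ⟨⟨_, rfl⟩, _, rfl⟩
    · obtain ⟨c, hc⟩ := hcon {_, _} (Finset.coe_pair.le)
      have h1 := (hψ _ _ _).mp (hc _ (Finset.mem_insert_self _ _))
      have h2 := (hψ _ _ _).mp (hc _ (Finset.mem_insert_of_mem (Finset.mem_singleton_self _)))
      exact h2.2 fun x hx => (ha (.inr (.inl (.inl i))) (.inr (.inr (.inl j)))).mpr
        (Or.inr ⟨i, j, rfl, rfl, hij⟩) x (h1.1 x hx)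
  · refine ⟨n, n, (incl φ).relabel Sum.swap, M, fun i => a (.inr (.inl (.inr i))),
      fun A => a (.inl ⟨Sum.inr '' A, Or.inr (Set.image_subset_range _ _)⟩), fun i A => ?_⟩
    rw [Formula.realize_relabel, realize_incl]
    exact (l1 _ _).trans Sum.inr_injective.mem_set_image

end Poset

section Enc

variable {M : Type w} {mx ny m n : ℕ}

abbrev Gm (mx ny m n : ℕ) : Type := Fin 5 ⊕ (Fin mx ⊕ Fin ny) ⊕ (Fin m ⊕ Fin n)

variable [L.Structure M] (φ : L.Formula (Fin mx ⊕ Fin ny)) (ρ : L.Formula (Fin m ⊕ Fin n))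

def Rh (z z' : Gm mx ny m n → M) : Prop :=
  ρ.Realize (Sum.elim (fun i => z (.inr (.inr (.inl i)))) fun i => z' (.inr (.inr (.inr i))))

def Ph (z z' : Gm mx ny m n → M) : Prop :=
  (z' (.inl 0) = z' (.inl 3) ∨
    φ.Realize (Sum.elim (fun i => z (.inr (.inl (.inl i)))) fun i => z' (.inr (.inl (.inr i))))) ∧
  Rh ρ z z'

def leP (z z' : Gm mx ny m n → M) : Prop :=
  (∀ i, z i = z' i) ∨
  (z (.inl 0) = z (.inl 1) ∧ (¬ z' (.inl 0) = z' (.inl 1) ∧ z' (.inl 0) = z' (.inl 2)) ∧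
    Ph φ ρ z z') ∨
  (z (.inl 0) = z (.inl 1) ∧ (¬ z' (.inl 0) = z' (.inl 1) ∧ ¬ z' (.inl 0) = z' (.inl 2)) ∧
    ¬ Ph φ ρ z z') ∨
  ((¬ z (.inl 0) = z (.inl 1) ∧ z (.inl 0) = z (.inl 2)) ∧
    (¬ z' (.inl 0) = z' (.inl 1) ∧ ¬ z' (.inl 0) = z' (.inl 2)) ∧
    Rh ρ z z' ∧ ¬ ∃ y : Gm mx ny m n → M, Ph φ ρ y z ∧ Ph φ ρ y z')

theorem leP_trans (x y z : Gm mx ny m n → M) (h : leP φ ρ x y) (h' : leP φ ρ y z) :
    leP φ ρ x z := by
  rcases h with h | h
  · obtain rfl : x = y := funext h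
    exact h'
  rcases h' with h' | h'
  · obtain rfl : y = z := funext h'
    exact Or.inr h
  rcases h with h | h | h <;> rcases h' with h' | h' | h'
  · exact absurd h'.1 h.2.1.1
  · exact absurd h'.1 h.2.1.1
  · exact Or.inr (Or.inr (Or.inl ⟨h.1, h'.2.1, fun hz => h'.2.2.2 ⟨x, h.2.2, hz⟩⟩))
  · exact absurd h'.1 h.2.1.1
  · exact absurd h'.1 h.2.1.1
  · exact absurd h'.1.2 h.2.1.2
  · exact absurd h'.1 h.2.1.1
  · exact absurd h'.1 h.2.1.1
  · exact absurd h'.1.2 h.2.1.2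

theorem defP_Rh {δ : Type} (f g : Gm mx ny m n → δ) :
    DefP L fun v : δ → M => Rh ρ (v ∘ f) (v ∘ g) :=
  DefP.realize ρ (fun i => f (.inr (.inr (.inl i)))) fun i => g (.inr (.inr (.inr i)))

theorem defP_Ph {δ : Type} (f g : Gm mx ny m n → δ) :
    DefP L fun v : δ → M => Ph φ ρ (v ∘ f) (v ∘ g) :=
  ((DefP.eq _ _).or (DefP.realize φ (fun i => f (.inr (.inl (.inl i))))
    fun i => g (.inr (.inl (.inr i))))).and (defP_Rh ρ f g)

theorem defP_leP : DefP L fun v : Gm mx ny m n ⊕ Gm mx ny m n → M =>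
    leP φ ρ (v ∘ Sum.inl) (v ∘ Sum.inr) :=
  (DefP.all fun i => DefP.eq (.inl i) (.inr i)).or
    (((DefP.eq _ _).and (((DefP.eq _ _).not.and (DefP.eq _ _)).and (defP_Ph φ ρ _ _))).or
    (((DefP.eq _ _).and (((DefP.eq _ _).not.and (DefP.eq _ _).not).and (defP_Ph φ ρ _ _).not)).or
    (((DefP.eq _ _).not.and (DefP.eq _ _)).and (((DefP.eq _ _).not.and (DefP.eq _ _).not).and
      ((defP_Rh ρ _ _).and (DefP.ex ((defP_Ph φ ρ Sum.inr (Sum.inl ∘ Sum.inl)).and
        (defP_Ph φ ρ Sum.inr (Sum.inl ∘ Sum.inr)))).not)))))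

end Enc

theorem to_sop_core {J : Type} {C : Set (Set J)} {I : J → J → Prop}
    {hC : ∀ c ∈ C, ∀ i ∈ c, ∀ j ∈ c, ¬ I i j} {T : L.Theory} {mx ny m n : ℕ}
    {φ : L.Formula (Fin mx ⊕ Fin ny)} {M : Theory.ModelType.{u, v, w} T} {a : J → Fin ny → M}
    (hcon : ∀ c ∈ C, Consistent φ (a '' c)) (hinc : ∀ i j, I i j → ¬ Consistent φ {a i, a j})
    {ρ : L.Formula (Fin m ⊕ Fin n)} (hρ : ∀ (A : Type) [Finite A] (R : A → A → Prop),
      ∃ (x : A → Fin m → M) (y : A → Fin n → M), ∀ a b,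
        ρ.Realize (Sum.elim (x a) (y b)) ↔ R a b) : HasSOP.{u, v, w} (Pat C I hC) T := by
  classical
  have hinf : Infinite M := by
    by_contra hfin
    rw [not_infinite_iff_finite] at hfin
    obtain ⟨x, y, hxy⟩ := hρ (Fin (Nat.card (Fin m → M) + 1)) Eq
    have := Nat.card_le_card_of_injective x fun i j e => (hxy i j).1 (e ▸ (hxy j j).2 rfl)
    simp only [Nat.card_eq_fintype_card, Fintype.card_fin] at this
    omega
  let p : ℕ ↪ M := Infinite.natEmbedding M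
  have hp01 : p 0 ≠ p 1 := fun h => absurd (p.injective h) (by decide)
  have hx : ∀ F : {F // Adm C F}, ∃ x : Fin mx → M, ∀ j, .inl j ∈ F.1 →
      φ.Realize (Sum.elim x (a j)) := by
    rintro ⟨F, ⟨hF, c, hc, hFc⟩ | hF⟩
    · have hf := hF.preimage Sum.inl_injective.injOn
      obtain ⟨x, hx⟩ := hcon c hc (hf.toFinset.image a) (by
        intro y hy
        obtain ⟨j, hj, rfl⟩ := Finset.mem_image.mp hy
        exact ⟨j, Sum.inl_injective.mem_set_image.1 (hFc (hf.mem_toFinset.1 hj)), rfl⟩)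
      exact ⟨x, fun j hj => hx _ (Finset.mem_image_of_mem _ (hf.mem_toFinset.2 hj))⟩
    · exact ⟨fun _ => p 0, fun j hj => let ⟨_, g⟩ := hF hj; absurd g Sum.inr_ne_inl⟩
  choose cx hcx using hx
  let idx : Pat C I hC → J ⊕ ℕ := Sum.elim (fun _ => .inr 0) (Sum.elim id id)
  let R : Pat C I hC → Pat C I hC → Prop := fun s t =>
    Sum.elim (fun F => idx t ∈ F.1) (Sum.elim (fun k => Inc I k (idx t)) fun _ => False) s
  refine sop_any M (γ := Gm mx ny m n) (leP φ ρ) (defP_leP φ ρ) (fun z => Or.inl fun _ => rfl)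
    (leP_trans φ ρ) fun E => ?_
  obtain ⟨x, y, hxy⟩ := hρ E fun s t => R s t
  obtain ⟨e, he⟩ := Set.countable_iff_exists_injOn.1 E.countable_toSet
  let z : Pat C I hC → Gm mx ny m n → M := fun s => Sum.elim
    ![p 0, Sum.elim (fun _ => p 0) (fun _ => p 1) s,
      Sum.elim (fun _ => p 0) (Sum.elim (fun _ => p 0) fun _ => p 1) s,
      Sum.elim (fun _ => p 1) (fun _ => p 0) (idx s), p (e s)]
    (Sum.elim (Sum.elim (Sum.elim cx (fun _ _ => p 0) s) (Sum.elim a (fun _ _ => p 0) (idx s)))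
      (if h : s ∈ E then Sum.elim (x ⟨s, h⟩) (y ⟨s, h⟩) else fun _ => p 0))
  have hR : ∀ s ∈ E, ∀ t ∈ E, Rh ρ (z s) (z t) ↔ R s t := fun s hs t ht => by
    simp only [Rh, z, Sum.elim_inr, dif_pos hs, dif_pos ht, Sum.elim_inl]
    exact hxy ⟨s, hs⟩ ⟨t, ht⟩
  have hP : ∀ F, .inl F ∈ E → ∀ t ∈ E, Ph φ ρ (z (.inl F)) (z t) ↔ idx t ∈ F.1 :=
    fun F hs t ht => by
      rw [Ph, hR _ hs t ht]
      refine and_iff_right_of_imp fun g => ?_
      change p 0 = Sum.elim (fun _ => p 1) (fun _ => p 0) (idx t) ∨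
        φ.Realize (Sum.elim (cx F) (Sum.elim a (fun _ _ => p 0) (idx t)))
      change idx t ∈ F.1 at g
      rcases k : idx t with j | j
      · exact Or.inr (hcx F j (k ▸ g))
      · exact Or.inl rfl
  have hz : ∀ s ∈ E, ∀ t ∈ E, (∀ i, z s i = z t i) ↔ s = t := fun s hs t ht =>
    ⟨fun h => he hs ht (p.injective (h (.inl 4))), fun h i => h ▸ rfl⟩
  refine ⟨z, fun s hs t ht => ?_⟩
  rw [Pat.le_def, leP, hz s hs t ht]
  refine or_congr Iff.rfl ?_
  rcases s with F | k | k <;> rcases t with G | l | l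
  · exact iff_of_false (fun h => h.elim (fun g => g.2.1.1 rfl) fun h =>
      h.elim (fun g => g.2.1.1 rfl) fun g => g.1.1 rfl) id
  · exact ⟨fun h => h.elim (fun g => (hP F hs _ ht).1 g.2.2) fun h =>
      h.elim (fun g => (g.2.1.2 rfl).elim) fun g => (g.1.1 rfl).elim,
      fun h => Or.inl ⟨rfl, ⟨hp01, rfl⟩, (hP F hs _ ht).2 h⟩⟩
  · exact ⟨fun h => h.elim (fun g => (hp01 g.2.1.2).elim) fun h =>
      h.elim (fun g k => g.2.2 ((hP F hs _ ht).2 k)) fun g => (g.1.1 rfl).elim,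
      fun h => Or.inr (Or.inl ⟨rfl, ⟨hp01, hp01⟩, fun g => h ((hP F hs _ ht).1 g)⟩)⟩
  · exact iff_of_false (fun h => h.elim (fun g => hp01 g.1) fun h =>
      h.elim (fun g => hp01 g.1) fun g => g.2.1.1 rfl) id
  · exact iff_of_false (fun h => h.elim (fun g => hp01 g.1) fun h =>
      h.elim (fun g => hp01 g.1) fun g => g.2.1.2 rfl) id
  · refine ⟨fun h => h.elim (fun g => (hp01 g.1).elim) fun h =>
      h.elim (fun g => (hp01 g.1).elim) fun g => (hR _ hs _ ht).1 g.2.2.1,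
      fun h => Or.inr (Or.inr ⟨⟨hp01, rfl⟩, ⟨hp01, hp01⟩, (hR _ hs _ ht).2 h, ?_⟩)⟩
    obtain ⟨i, j, rfl, rfl, g⟩ := h
    rintro ⟨y, g1, g2⟩
    refine hinc i j g fun s hs => ⟨fun i => y (.inr (.inl (.inl i))), fun b hb => ?_⟩
    rcases hs hb with rfl | rfl
    exacts [g1.1.resolve_left hp01, g2.1.resolve_left hp01]
  all_goals
    exact iff_of_false (fun h => h.elim (fun g => hp01 g.1) fun h =>
      h.elim (fun g => hp01 g.1) fun g => hp01 g.1.2) id

theorem to_sop {J : Type} {C : Set (Set J)} {I : J → J → Prop}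
    {hC : ∀ c ∈ C, ∀ i ∈ c, ∀ j ∈ c, ¬ I i j} {T : L.Theory} (hT : T.IsComplete)
    (h : HasPattern.{u, v, w} C I T) (h' : HasIP.{u, v, w} T) :
    HasSOP.{u, v, w} (Pat C I hC) T :=
  let ⟨_, _, _, M, _, h1, h2⟩ := h
  let ⟨_, _, _, h3⟩ := graphs_of_ip hT h' M
  to_sop_core h1 h2 h3

section Two

variable {J : Type} (C : Set (Set J)) (I : J → J → Prop)

/- the pattern enlarged by the pattern of the independence property -/
def C2 : Set (Set (J ⊕ ℕ × Bool)) := {d | (∃ c ∈ C, d = Sum.inl '' c) ∨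
  ∃ A : Set ℕ, d = {k | ∃ n b, k = .inr (n, b) ∧ (b = true ↔ n ∈ A)}}

def I2 (s t : J ⊕ ℕ × Bool) : Prop := (∃ i j, s = .inl i ∧ t = .inl j ∧ I i j) ∨
  ∃ n, s = .inr (n, true) ∧ t = .inr (n, false)

variable {C I} {hC : ∀ c ∈ C, ∀ i ∈ c, ∀ j ∈ c, ¬ I i j} {T : L.Theory}

theorem two_ok (hC : ∀ c ∈ C, ∀ i ∈ c, ∀ j ∈ c, ¬ I i j) :
    ∀ c ∈ C2 C, ∀ i ∈ c, ∀ j ∈ c, ¬ I2 I i j := by
  rintro _ (⟨c, hc, rfl⟩ | ⟨A, rfl⟩) s hs t ht (⟨i, j, rfl, rfl, g⟩ | ⟨n, rfl, rfl⟩)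
  · exact hC c hc i (Sum.inl_injective.mem_set_image.1 hs) j
      (Sum.inl_injective.mem_set_image.1 ht) g
  · simp at hs
  · simp at hs
  · simp only [Set.mem_ofPred_eq, Sum.inr.injEq, Prod.mk.injEq] at hs ht
    obtain ⟨_, _, ⟨rfl, rfl⟩, h1⟩ := hs
    obtain ⟨_, _, ⟨rfl, rfl⟩, h2⟩ := ht
    exact absurd (h2.2 (h1.1 rfl)) (by decide)

theorem sop_of_two (h : HasPattern.{u, v, w} (C2 C) (I2 I) T) :
    HasSOP.{u, v, w} (Pat C I hC) T := by
  classical
  obtain ⟨m, n, φ, M, a, h1, h2⟩ := h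
  refine to_sop_core (φ := φ) (a := fun j => a (.inl j)) (ρ := φ) (fun c hc => ?_)
    (fun i j g => h2 _ _ (Or.inl ⟨i, j, rfl, rfl, g⟩)) fun A _ R => ?_
  · have := h1 _ (Or.inl ⟨c, hc, rfl⟩)
    rwa [Set.image_image] at this
  · obtain ⟨e, he⟩ := Countable.exists_injective_nat A
    have := Fintype.ofFinite A
    have k : ∀ s : A, ∃ x : Fin m → M, ∀ t,
        φ.Realize (Sum.elim x (a (.inr (e t, decide (R s t))))) := fun s => by
      obtain ⟨x, hx⟩ := h1 _ (Or.inr ⟨e '' {t | R s t}, rfl⟩)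
        (Finset.univ.image fun t => a (.inr (e t, decide (R s t)))) (by
          intro y hy
          obtain ⟨t, -, rfl⟩ := Finset.mem_image.mp hy
          exact ⟨_, ⟨_, _, rfl, decide_eq_true_iff.trans he.mem_set_image.symm⟩, rfl⟩)
      exact ⟨x, fun t => hx _ (Finset.mem_image_of_mem _ (Finset.mem_univ t))⟩
    choose x hx using k
    refine ⟨x, fun t => a (.inr (e t, true)), fun s t => ⟨fun g => ?_, fun g => ?_⟩⟩
    · by_contra k
      have g' := hx s t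
      rw [decide_eq_false k] at g'
      refine h2 _ _ (Or.inr ⟨e t, rfl, rfl⟩) fun z hz => ⟨x s, fun b hb => ?_⟩
      rcases hz hb with rfl | rfl
      exacts [g, g']
    · have g' := hx s t
      rwa [decide_eq_true g] at g'

theorem two_of_sop (h : HasSOP.{u, v, w} (Pat C I hC) T) :
    HasPattern.{u, v, w} (C2 C) (I2 I) T := by
  classical
  obtain ⟨m, n, φ, M, a, ha⟩ := h
  let le : (Fin n → M) → (Fin n → M) → Prop := fun y z =>
    ∀ c : Fin m → M, φ.Realize (Sum.elim c y) → φ.Realize (Sum.elim c z)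
  have l1 : ∀ F k, le (a (.inl F)) (a (.inr (.inl k))) ↔ k ∈ F.1 := fun F k =>
    (ha _ _).trans (or_iff_right Sum.inl_ne_inr)
  have l2 : ∀ F k, le (a (.inl F)) (a (.inr (.inr k))) ↔ k ∉ F.1 := fun F k =>
    (ha _ _).trans (or_iff_right Sum.inl_ne_inr)
  obtain ⟨ψ, hψ⟩ := ex_psi φ
  let b : J ⊕ ℕ × Bool → Fin (n + n) → M := fun k => match k with
    | .inl j => Fin.append (a (.inr (.inl (.inl j)))) (a (.inr (.inr (.inl j))))
    | .inr (i, true) => Fin.append (a (.inr (.inl (.inr i)))) (a (.inr (.inr (.inr i))))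
    | .inr (i, false) => Fin.append (a (.inr (.inr (.inr i)))) (a (.inr (.inl (.inr i))))
  refine ⟨n, n + n, ψ, M, b, ?_, fun i j hij hcon => ?_⟩
  · rintro _ (⟨c, hc, rfl⟩ | ⟨A, rfl⟩) s hs
    · rw [Set.image_image] at hs
      choose f hf using fun y : s => hs y.2
      refine ⟨a (.inl ⟨Set.range fun y => .inl (f y), Or.inl ⟨Set.finite_range _, c, hc, ?_⟩⟩),
        fun y hy => ?_⟩
      · rintro _ ⟨y, rfl⟩
        exact ⟨_, (hf y).1, rfl⟩
      · have e : _ = y := (hf ⟨y, hy⟩).2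
        rw [← e]
        exact (hψ _ _ _ _).2 ⟨(l1 _ _).2 ⟨_, rfl⟩, fun g => (l2 _ _).1 g ⟨_, rfl⟩⟩
    · refine ⟨a (.inl ⟨Sum.inr '' A, Or.inr (Set.image_subset_range _ _)⟩), fun y hy => ?_⟩
      obtain ⟨_, ⟨i, c, rfl, g⟩, rfl⟩ := hs hy
      have g' := g.trans (Sum.inr_injective (α := J)).mem_set_image.symm
      cases c
      · exact (hψ _ _ _ _).2 ⟨(l2 _ _).2 fun k => absurd (g'.2 k) (by decide),
          fun k => absurd (g'.2 ((l1 _ _).1 k)) (by decide)⟩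
      · exact (hψ _ _ _ _).2 ⟨(l1 _ _).2 (g'.1 rfl), fun k => (l2 _ _).1 k (g'.1 rfl)⟩
  · obtain ⟨c, hc⟩ := hcon {_, _} (Finset.coe_pair.le)
    have h1 := hc _ (Finset.mem_insert_self _ _)
    have h2 := hc _ (Finset.mem_insert_of_mem (Finset.mem_singleton_self _))
    rcases hij with ⟨i, j, rfl, rfl, hij⟩ | ⟨i, rfl, rfl⟩
    · exact ((hψ _ _ _ _).1 h2).2 fun x hx => (ha (.inr (.inl (.inl i))) (.inr (.inr (.inl j)))).mpr
        (Or.inr ⟨i, j, rfl, rfl, hij⟩) x (((hψ _ _ _ _).1 h1).1 x hx)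
    · exact ((hψ _ _ _ _).1 h2).2 ((hψ _ _ _ _).1 h1).1

theorem pat_height (a b c d : Pat C I hC) : ¬ (a < b ∧ b < c ∧ c < d) := by
  rintro ⟨h1, h2, h3⟩
  have g1 := h1.le.resolve_left h1.ne
  have g2 := h2.le.resolve_left h2.ne
  have g3 := h3.le.resolve_left h3.ne
  rcases b with b | b | b
  · rcases a with a | a | a <;> exact g1
  · rcases c with c | c | c
    · exact g2
    · exact g2
    · rcases d with d | d | d <;> exact g3
  · rcases c with c | c | c <;> exact g2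

end Two

section Height

variable (S : Type) [PartialOrder S]

/- elements above a chain of length two -/
def Hi (z : S) : Prop := ∃ x y, x < y ∧ y < z

/- the pattern of a poset -/
def CS : Set (Set S) := {c | ∃ x, c = {y | (¬ Hi S y ∧ x ≤ y) ∨ (Hi S y ∧ ¬ x ≤ y)}}

def IS (y z : S) : Prop := ¬ Hi S y ∧ Hi S z ∧ y ≤ z

theorem cs_ok : ∀ c ∈ CS S, ∀ i ∈ c, ∀ j ∈ c, ¬ IS S i j := by
  rintro _ ⟨x, rfl⟩ i hi j hj ⟨h1, h2, h3⟩
  exact (hj.resolve_left fun g => g.1 h2).2 ((hi.resolve_right fun g => h1 g.1).2.trans h3)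

variable {S} {T : L.Theory}

theorem pat_of_sop (h : HasSOP.{u, v, w} S T) : HasPattern.{u, v, w} (CS S) (IS S) T := by
  classical
  obtain ⟨m, n, φ, M, a, ha⟩ := h
  obtain ⟨ψ, hψ⟩ := ex_chi φ
  have k : ∀ z, ∃ z', z ≤ z' ↔ ¬ Hi S z := fun z => by
    by_cases g : Hi S z
    · obtain ⟨x, y, h1, h2⟩ := g
      exact ⟨y, iff_of_false h2.not_ge fun g => g ⟨x, y, h1, h2⟩⟩
    · exact ⟨z, iff_of_true le_rfl g⟩
  choose f hf using k
  refine ⟨n, n + n, ψ, M, fun z => Fin.append (a z) (a (f z)), ?_, fun i j hij hcon => ?_⟩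
  · rintro _ ⟨x, rfl⟩ s hs
    refine ⟨a x, fun y hy => ?_⟩
    obtain ⟨z, hz, rfl⟩ := hs hy
    rw [hψ, ha, ha, hf]
    exact hz.elim (fun g => iff_of_true g.2 g.1) fun g => iff_of_false g.2 (not_not.2 g.1)
  · obtain ⟨c, hc⟩ := hcon {_, _} (Finset.coe_pair.le)
    have h1 := (hψ _ _ _ _).1 (hc _ (Finset.mem_insert_self _ _))
    have h2 := (hψ _ _ _ _).1 (hc _ (Finset.mem_insert_of_mem (Finset.mem_singleton_self _)))
    rw [ha, hf] at h1 h2
    exact h2.1 (fun x hx => (ha i j).2 hij.2.2 x (h1.2 hij.1 x hx)) hij.2.1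

theorem sop_of_pat (hS : ∀ a b c d : S, ¬ (a < b ∧ b < c ∧ c < d))
    (h : HasSOP.{u, v, w} (Pat (CS S) (IS S) (cs_ok S)) T) : HasSOP.{u, v, w} S T := by
  classical
  obtain ⟨m, n, φ, M, a, ha⟩ := h
  refine sop_fin_any M φ fun E => ?_
  let F : S → {F // Adm (CS S) F} := fun x =>
    ⟨Sum.inl '' {y | y ∈ E ∧ ((¬ Hi S y ∧ x ≤ y) ∨ (Hi S y ∧ ¬ x ≤ y))},
      Or.inl ⟨(E.finite_toSet.subset fun _ g => g.1).image _, _, ⟨x, rfl⟩,
        Set.image_mono fun _ g => g.2⟩⟩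
  have hF : ∀ x y, y ∈ E → (.inl y ∈ (F x).1 ↔ (¬ Hi S y ∧ x ≤ y) ∨ (Hi S y ∧ ¬ x ≤ y)) :=
    fun x y hy => Sum.inl_injective.mem_set_image.trans (and_iff_right hy)
  obtain ⟨g, g0, g1, g2⟩ : ∃ g : S → Pat (CS S) (IS S) (cs_ok S),
      (∀ s, IsMin s → g s = .inl (F s)) ∧
      (∀ s, ¬ IsMin s → ¬ Hi S s → g s = .inr (.inl (.inl s))) ∧
      ∀ s, ¬ IsMin s → Hi S s → g s = .inr (.inr (.inl s)) :=
    ⟨fun s => if IsMin s then .inl (F s) else if Hi S s then .inr (.inr (.inl s))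
      else .inr (.inl (.inl s)), fun _ h => if_pos h, fun _ h h' => (if_neg h).trans (if_neg h'),
      fun _ h h' => (if_neg h).trans (if_pos h')⟩
  have m1 : ∀ s, IsMin s → ¬ Hi S s := fun s h ⟨_, _, _, k⟩ => h.not_lt k
  refine ⟨fun s => a (g s), fun s hs t ht => (ha _ _).trans (Pat.le_def.trans ?_)⟩
  by_cases s0 : IsMin s <;> by_cases t0 : IsMin t
  · rw [g0 s s0, g0 t t0]
    refine ⟨fun k => ?_, fun k => Or.inl (by rw [k.antisymm (t0 k)])⟩
    have e := Sum.inl_injective (k.resolve_right id)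
    exact (((hF s t ht).1 (e ▸ (hF t t ht).2 (Or.inl ⟨m1 t t0, le_rfl⟩))).resolve_right
      fun k => m1 t t0 k.1).2
  · by_cases t2 : Hi S t
    · rw [g0 s s0, g2 t t0 t2]
      exact (or_iff_right Sum.inl_ne_inr).trans ((not_congr (hF s t ht)).trans (by tauto))
    · rw [g0 s s0, g1 t t0 t2]
      exact (or_iff_right Sum.inl_ne_inr).trans ((hF s t ht).trans (by tauto))
  · refine iff_of_false ?_ fun k => s0 (k.antisymm (t0 k) ▸ t0)
    by_cases s2 : Hi S s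
    · rw [g2 s s0 s2, g0 t t0]
      exact fun k => k.elim Sum.inr_ne_inl id
    · rw [g1 s s0 s2, g0 t t0]
      exact fun k => k.elim Sum.inr_ne_inl id
  · obtain ⟨r, hr⟩ := not_isMin_iff.1 s0
    by_cases s2 : Hi S s <;> by_cases t2 : Hi S t
    · rw [g2 s s0 s2, g2 t t0 t2]
      refine ⟨fun k => (Sum.inl_injective (Sum.inr_injective (Sum.inr_injective
        (k.resolve_right id)))).le, fun k => Or.inl ?_⟩
      obtain ⟨x, y, h1, h2⟩ := s2
      rw [k.eq_or_lt.resolve_right fun k => hS x y s t ⟨h1, h2, k⟩]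
    · rw [g2 s s0 s2, g1 t t0 t2]
      obtain ⟨x, y, h1, h2⟩ := s2
      exact iff_of_false (fun k => k.elim (fun k => Sum.inr_ne_inl (Sum.inr_injective k)) id)
        fun k => t2 ⟨x, y, h1, h2.trans_le k⟩
    · rw [g1 s s0 s2, g2 t t0 t2]
      refine (or_iff_right fun k => Sum.inl_ne_inr (Sum.inr_injective k)).trans
        ⟨fun ⟨i, j, e, e', k⟩ => ?_, fun k => ⟨s, t, rfl, rfl, s2, t2, k⟩⟩
      rw [Sum.inl_injective e, Sum.inl_injective e']
      exact k.2.2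
    · rw [g1 s s0 s2, g1 t t0 t2]
      refine ⟨fun k => (Sum.inl_injective (Sum.inl_injective (Sum.inr_injective
        (k.resolve_right id)))).le, fun k => Or.inl ?_⟩
      rw [k.eq_or_lt.resolve_right fun k => t2 ⟨r, s, hr, k⟩]

end Height

theorem height_three (Q : ∀ L : FirstOrder.Language.{u, v}, L.Theory → Prop)
    (hQ : ∀ L (T : L.Theory), T.IsComplete → Q L T → HasIP.{u, v, w} T) :
    (∃ (S : Type) (_ : PartialOrder S), (∀ a b c d : S, ¬ (a < b ∧ b < c ∧ c < d)) ∧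
      ∀ L (T : L.Theory), T.IsComplete → (Q L T ↔ HasSOP.{u, v, w} S T)) ↔
    ∃ (J : Type) (C : Set (Set J)) (I : J → J → Prop), (∀ c ∈ C, ∀ i ∈ c, ∀ j ∈ c, ¬ I i j) ∧
      ∀ L (T : L.Theory), T.IsComplete → (Q L T ↔ HasPattern.{u, v, w} C I T) :=
  ⟨fun ⟨S, _, h1, h2⟩ => ⟨_, _, _, two_ok (cs_ok S), fun L T hT =>
    ⟨fun g => two_of_sop (to_sop (hC := cs_ok S) hT (pat_of_sop ((h2 L T hT).1 g)) (hQ L T hT g)),
      fun g => (h2 L T hT).2 (sop_of_pat h1 (sop_of_two g))⟩⟩,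
  fun ⟨_, C, I, h1, h2⟩ => ⟨Pat C I h1, inferInstance, pat_height, fun L T hT =>
    ⟨fun g => to_sop hT ((h2 L T hT).1 g) (hQ L T hT g), fun g => (h2 L T hT).2 (of_sop g).1⟩⟩⟩

end Pool.Agent.P.MP_4a08ba_lc
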