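import Pool.Agent.P.MP_4a08ba_lc.Defs

namespace Pool.Agent.P.MP_4a08ba_lc

open FirstOrder

universe u v w

/- `T` exhibits the consistency pattern on `J` with consistent sets `C` and inconsistent pairs `I`. -/
def HasPattern {J : Type} (C : Set (Set J)) (I : J → J → Prop) {L : FirstOrder.Language.{u, v}}
    (T : L.Theory) : Prop :=
  ∃ (m n : ℕ) (φ : L.Formula (Fin m ⊕ Fin n)) (M : FirstOrder.Language.Theory.ModelType.{u, v, w} T)
    (a : J → Fin n → M),
    (∀ c ∈ C, Consistent φ (a '' c)) ∧ ∀ i j, I i j → ¬ Consistent φ {a i, a j}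

/- The independence property. -/
def HasIP {L : FirstOrder.Language.{u, v}} (T : L.Theory) : Prop :=
  ∃ (m n : ℕ) (φ : L.Formula (Fin m ⊕ Fin n)) (M : FirstOrder.Language.Theory.ModelType.{u, v, w} T)
    (a : ℕ → Fin m → M) (b : Set ℕ → Fin n → M),
    ∀ i A, φ.Realize (Sum.elim (a i) (b A)) ↔ i ∈ A

end Pool.Agent.P.MP_4a08ba_lc
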